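import Pool.Agent.Helper658.Kershner

set_option autoImplicit false

open MeasureTheory Metric Set Filter Topology

namespace Pool.Agent.Helper658

theorem closedBall_half_injective :
    Function.Injective (fun x : EuclideanSpace ℝ (Fin 2) => closedBall x (1/2 : ℝ)) := by
  intro x y h
  have h' : closedBall x (1/2 : ℝ) = closedBall y (1/2 : ℝ) := h
  by_contra hne
  have hd : 0 < ‖x - y‖ := norm_pos_iff.mpr (sub_ne_zero.mpr hne)
  have hz : x + (1 / 2 / ‖x - y‖) • (x - y) ∈ closedBall x (1/2 : ℝ) := by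
    rw [mem_closedBall, dist_eq_norm]
    have : x + (1 / 2 / ‖x - y‖) • (x - y) - x = (1 / 2 / ‖x - y‖) • (x - y) := by abel
    rw [this, norm_smul, Real.norm_of_nonneg (by positivity), div_mul_cancel₀ _ hd.ne']
  rw [h', mem_closedBall, dist_eq_norm] at hz
  have h2 : x + (1 / 2 / ‖x - y‖) • (x - y) - y = (1 + 1 / 2 / ‖x - y‖) • (x - y) := by
    module
  rw [h2, norm_smul, Real.norm_of_nonneg (by positivity), add_mul, one_mul,
    div_mul_cancel₀ _ hd.ne'] at hz
  linarith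

theorem ball_cover_count (B : Set (Set (EuclideanSpace ℝ (Fin 2))))
    (hB : ∀ S ∈ B, ∃ x : EuclideanSpace ℝ (Fin 2), S = closedBall x (1/2 : ℝ))
    (hU : ⋃₀ B = univ) (r : ℝ) (hr : 3/2 ≤ r) :
    volume (closedBall (0 : EuclideanSpace ℝ (Fin 2)) (r - 3/2)) ≤
      2 * ENNReal.ofReal (3 * Real.sqrt 3 / 4 * (1/2) ^ 2) *
        ((({S ∈ B | S ⊆ closedBall (0 : EuclideanSpace ℝ (Fin 2)) r}.encard : ℕ∞) : ENNReal)) := by
  set P : Set (EuclideanSpace ℝ (Fin 2)) := {x | closedBall x (1/2 : ℝ) ∈ B} with hP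
  have hcov : ∀ x : EuclideanSpace ℝ (Fin 2), ∃ p ∈ P, dist p x ≤ 1/2 := by
    intro x
    have hx : x ∈ ⋃₀ B := by rw [hU]; trivial
    obtain ⟨S, hS, hxS⟩ := hx
    obtain ⟨p, hp⟩ := hB S hS
    refine ⟨p, ?_, ?_⟩
    · show closedBall p (1/2 : ℝ) ∈ B
      rw [← hp]; exact hS
    · rw [hp, mem_closedBall] at hxS
      rw [dist_comm]; exact hxS
  have h := kershner P (r - 3/2) (1/2) (by norm_num) (by linarith) hcov
  refine h.trans ?_
  gcongr
  have himg : (fun x : EuclideanSpace ℝ (Fin 2) => closedBall x (1/2 : ℝ)) ''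
      (P ∩ closedBall 0 (r - 3/2 + 2 * (1/2))) ⊆
      {S ∈ B | S ⊆ closedBall (0 : EuclideanSpace ℝ (Fin 2)) r} := by
    rintro S ⟨x, ⟨hxP, hx⟩, rfl⟩
    refine ⟨hxP, ?_⟩
    intro y hy
    rw [mem_closedBall] at hx ⊢
    have hy' : dist y x ≤ 1/2 := hy
    have := dist_triangle y x 0
    linarith
  calc (P ∩ closedBall 0 (r - 3/2 + 2 * (1/2))).encard
      = ((fun x : EuclideanSpace ℝ (Fin 2) => closedBall x (1/2 : ℝ)) ''
        (P ∩ closedBall 0 (r - 3/2 + 2 * (1/2)))).encard :=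
        (closedBall_half_injective.encard_image _).symm
    _ ≤ _ := encard_le_encard himg

theorem ball_cover_liminf (B : Set (Set (EuclideanSpace ℝ (Fin 2))))
    (hB : ∀ S ∈ B, ∃ x : EuclideanSpace ℝ (Fin 2), S = closedBall x (1/2 : ℝ))
    (hU : ⋃₀ B = univ) :
    ENNReal.ofReal 1.53 ≤ Filter.liminf
        (fun r : ℝ =>
          ((({S ∈ B | S ⊆ closedBall (0 : EuclideanSpace ℝ (Fin 2)) r}.encard : ℕ∞) : ENNReal)) /
            volume (closedBall (0 : EuclideanSpace ℝ (Fin 2)) r))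
        Filter.atTop := by
  refine Filter.le_liminf_of_le (by isBoundedDefault) ?_
  filter_upwards [eventually_ge_atTop (1000 : ℝ)] with r hr
  have h := ball_cover_count B hB hU r (by linarith)
  set N := ((({S ∈ B | S ⊆ closedBall (0 : EuclideanSpace ℝ (Fin 2)) r}.encard : ℕ∞) : ENNReal))
  have hvol0 : volume (closedBall (0 : EuclideanSpace ℝ (Fin 2)) r) ≠ 0 :=
    (measure_closedBall_pos volume _ (by linarith)).ne'
  have hvolt : volume (closedBall (0 : EuclideanSpace ℝ (Fin 2)) r) ≠ ⊤ :=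
    measure_closedBall_lt_top.ne
  rw [ENNReal.le_div_iff_mul_le (Or.inl hvol0) (Or.inl hvolt)]
  have e1 := Measure.addHaar_closedBall (volume : Measure (EuclideanSpace ℝ (Fin 2)))
    (0 : EuclideanSpace ℝ (Fin 2)) (r := r) (by linarith)
  have e2 := Measure.addHaar_closedBall (volume : Measure (EuclideanSpace ℝ (Fin 2)))
    (0 : EuclideanSpace ℝ (Fin 2)) (r := r - 3/2) (by linarith)
  rw [finrank_euclideanSpace_fin] at e1 e2
  rw [e2] at h
  rw [e1]
  set V := volume (ball (0 : EuclideanSpace ℝ (Fin 2)) 1)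
  have hs3 : Real.sqrt 3 < 1.7321 := by
    rw [Real.sqrt_lt' (by norm_num)]; norm_num
  have hs0 : 0 < Real.sqrt 3 := Real.sqrt_pos.2 (by norm_num)
  set a := ENNReal.ofReal (3 * Real.sqrt 3 / 4 * (1/2) ^ 2) with ha
  have hapos : 0 < 3 * Real.sqrt 3 / 4 * (1/2 : ℝ) ^ 2 := by positivity
  have ha0 : 2 * a ≠ 0 := by
    simp only [ne_eq, mul_eq_zero, not_or]
    exact ⟨by norm_num, (ENNReal.ofReal_pos.2 hapos).ne'⟩
  have hat : 2 * a ≠ ⊤ := ENNReal.mul_ne_top (by norm_num) ENNReal.ofReal_ne_top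
  have key : 2 * a * (ENNReal.ofReal 1.53 * (ENNReal.ofReal (r ^ 2) * V)) ≤ 2 * a * N := by
    refine le_trans ?_ h
    have e3 : 2 * a * (ENNReal.ofReal 1.53 * (ENNReal.ofReal (r ^ 2) * V)) =
        (ENNReal.ofReal (2 * (3 * Real.sqrt 3 / 4 * (1/2 : ℝ) ^ 2) * 1.53 * r ^ 2)) * V := by
      rw [ENNReal.ofReal_mul (by positivity), ENNReal.ofReal_mul (by positivity),
        ENNReal.ofReal_mul (by norm_num), ← ha]
      have : ENNReal.ofReal 2 = 2 := by norm_num
      rw [this]; ring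
    rw [e3]
    gcongr
    nlinarith
  exact (ENNReal.mul_le_mul_iff_right ha0 hat).1 key

end Pool.Agent.Helper658
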