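import Mathlib

set_option autoImplicit false

open MeasureTheory Metric Set Filter Topology

namespace Pool.Agent.Helper658

theorem dist_sq (p c : EuclideanSpace ℝ (Fin 2)) :
    dist p c ^ 2 = (p 0 - c 0) ^ 2 + (p 1 - c 1) ^ 2 := by
  rw [EuclideanSpace.dist_eq, Real.sq_sqrt (by positivity)]
  simp [Fin.sum_univ_two, Real.dist_eq, sq_abs]

/-- algebraic core of uniqueness of the cell above (or below) a site -/
theorem cell_unique_aux (t σ : ℝ) (c0 c1 d0 d1 K p0 p1 l0 l1 r0 r1 l0' l1' r0' r1' α β α' β' : ℝ)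
    (hα : 0 < α) (hβ : 0 < β) (hαβ : α + β = 1)
    (hα' : 0 < α') (hβ' : 0 < β') (hαβ' : α' + β' = 1)
    (hgp : 2 * (p0 * (d0 - c0) + p1 * (d1 - c1)) + K = 0)
    (hgl : 2 * (l0 * (d0 - c0) + l1 * (d1 - c1)) + K ≤ 0)
    (hgr : 2 * (r0 * (d0 - c0) + r1 * (d1 - c1)) + K ≤ 0)
    (hgl' : 0 ≤ 2 * (l0' * (d0 - c0) + l1' * (d1 - c1)) + K)
    (hgr' : 0 ≤ 2 * (r0' * (d0 - c0) + r1' * (d1 - c1)) + K)
    (hX : α * (l0 + t * l1) + β * (r0 + t * r1) = p0 + t * p1)
    (hX' : α' * (l0' + t * l1') + β' * (r0' + t * r1') = p0 + t * p1)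
    (hne : l0 + t * l1 ≠ p0 + t * p1)
    (hup : 0 < σ * (α * l1 + β * r1 - p1))
    (hup' : 0 < σ * (α' * l1' + β' * r1' - p1)) :
    c0 = d0 ∧ c1 = d1 := by
  set e0 := d0 - c0 with he0
  set e1 := d1 - c1 with he1
  set τ := α * l1 + β * r1 - p1 with hτ
  set τ' := α' * l1' + β' * r1' - p1 with hτ'
  set κ := e1 - t * e0 with hκ
  have hz : α * (2 * (l0 * e0 + l1 * e1) + K) + β * (2 * (r0 * e0 + r1 * e1) + K) = 2 * τ * κ := by
    have hb : β = 1 - α := by linarith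
    have hp0 : p0 = α * (l0 + t * l1) + β * (r0 + t * r1) - t * p1 := by linarith
    have hK : K = -(2 * (p0 * e0 + p1 * e1)) := by linarith
    rw [hK, hτ, hκ, hp0, hb]; ring
  have hz' : α' * (2 * (l0' * e0 + l1' * e1) + K) + β' * (2 * (r0' * e0 + r1' * e1) + K)
      = 2 * τ' * κ := by
    have hb : β' = 1 - α' := by linarith
    have hp0 : p0 = α' * (l0' + t * l1') + β' * (r0' + t * r1') - t * p1 := by linarith
    have hK : K = -(2 * (p0 * e0 + p1 * e1)) := by linarith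
    rw [hK, hτ', hκ, hp0, hb]; ring
  have h1 : τ * κ ≤ 0 := by
    have a1 : α * (2 * (l0 * e0 + l1 * e1) + K) ≤ 0 := mul_nonpos_of_nonneg_of_nonpos hα.le hgl
    have a2 : β * (2 * (r0 * e0 + r1 * e1) + K) ≤ 0 := mul_nonpos_of_nonneg_of_nonpos hβ.le hgr
    linarith
  have h2 : 0 ≤ τ' * κ := by
    have a1 : 0 ≤ α' * (2 * (l0' * e0 + l1' * e1) + K) := mul_nonneg hα'.le hgl'
    have a2 : 0 ≤ β' * (2 * (r0' * e0 + r1' * e1) + K) := mul_nonneg hβ'.le hgr'
    linarith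
  have hκ0 : κ = 0 := by
    have hσ : σ ≠ 0 := by
      rintro rfl
      simp at hup
    have hσ2 : 0 < σ ^ 2 := by positivity
    have a1 : 0 < σ ^ 2 * (τ * τ') := by
      have := mul_pos hup hup'
      calc 0 < σ * τ * (σ * τ') := this
        _ = σ ^ 2 * (τ * τ') := by ring
    have a2 : 0 < τ * τ' := (mul_pos_iff_of_pos_left hσ2).1 a1
    have a3 : (τ * κ) * (τ' * κ) ≤ 0 := mul_nonpos_of_nonpos_of_nonneg h1 h2
    have a4 : (τ * κ) * (τ' * κ) = (τ * τ') * κ ^ 2 := by ring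
    rw [a4] at a3
    have a5 : κ ^ 2 ≤ 0 := by
      by_contra h
      have : 0 < (τ * τ') * κ ^ 2 := mul_pos a2 (not_le.1 h)
      linarith
    have a6 : κ ^ 2 = 0 := le_antisymm a5 (sq_nonneg κ)
    exact pow_eq_zero_iff (two_ne_zero) |>.1 a6
  have h3 : 2 * (l0 * e0 + l1 * e1) + K = 0 := by
    have hz2 : α * (2 * (l0 * e0 + l1 * e1) + K) + β * (2 * (r0 * e0 + r1 * e1) + K) = 0 := by
      rw [hz, hκ0]; ring
    have a2 : β * (2 * (r0 * e0 + r1 * e1) + K) ≤ 0 := mul_nonpos_of_nonneg_of_nonpos hβ.le hgr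
    have a3 : 0 ≤ α * (2 * (l0 * e0 + l1 * e1) + K) := by linarith
    have a4 : 0 ≤ 2 * (l0 * e0 + l1 * e1) + K := nonneg_of_mul_nonneg_right a3 hα
    linarith
  have he1' : e1 = t * e0 := by linarith
  have h4 : e0 * ((l0 + t * l1) - (p0 + t * p1)) = 0 := by
    have : 2 * (l0 * e0 + l1 * e1) - 2 * (p0 * e0 + p1 * e1) = 0 := by linarith
    rw [he1'] at this
    linarith
  have h5 : e0 = 0 := by
    rcases mul_eq_zero.mp h4 with h | h
    · exact h
    · exact absurd (by linarith) hne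
  have h6 : e1 = 0 := by rw [he1', h5]; ring
  constructor <;> linarith

/-- `A` is the set of sites of `F` on an empty circle of radius at most `R`. -/
def IsDel (F : Finset (EuclideanSpace ℝ (Fin 2))) (R : ℝ)
    (A : Finset (EuclideanSpace ℝ (Fin 2))) : Prop :=
  ∃ c : EuclideanSpace ℝ (Fin 2), ∃ ρ : ℝ, ρ ≤ R ∧ (∀ p ∈ F, ρ ≤ dist p c) ∧
    ∀ p, p ∈ A ↔ p ∈ F ∧ dist p c = ρ

/-- `p` is a middle site of `A` with crossing chord on the side given by the sign of `σ` -/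
def Side (t σ : ℝ) (A : Finset (EuclideanSpace ℝ (Fin 2))) (p : EuclideanSpace ℝ (Fin 2)) : Prop :=
  ∃ l ∈ A, ∃ r ∈ A, ∃ α β : ℝ, 0 < α ∧ 0 < β ∧ α + β = 1 ∧
    α * (l 0 + t * l 1) + β * (r 0 + t * r 1) = p 0 + t * p 1 ∧
    l 0 + t * l 1 ≠ p 0 + t * p 1 ∧ 0 < σ * (α * l 1 + β * r 1 - p 1)

theorem side_unique (F : Finset (EuclideanSpace ℝ (Fin 2))) (R t σ : ℝ)
    (A A' : Finset (EuclideanSpace ℝ (Fin 2))) (hA : IsDel F R A) (hA' : IsDel F R A')
    (p : EuclideanSpace ℝ (Fin 2)) (hp : p ∈ A) (hp' : p ∈ A')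
    (hs : Side t σ A p) (hs' : Side t σ A' p) : A = A' := by
  obtain ⟨c, ρ, hρR, hge, hmem⟩ := hA
  obtain ⟨c', ρ', hρR', hge', hmem'⟩ := hA'
  obtain ⟨l, hl, r, hr, α, β, hα, hβ, hαβ, hX, hne, hup⟩ := hs
  obtain ⟨l', hl', r', hr', α', β', hα', hβ', hαβ', hX', hne', hup'⟩ := hs'
  have hρ0 : 0 ≤ ρ := by rw [← ((hmem p).1 hp).2]; exact dist_nonneg
  have hρ0' : 0 ≤ ρ' := by rw [← ((hmem' p).1 hp').2]; exact dist_nonneg
  -- g q = (dist q c)^2 - ρ^2 - ((dist q c')^2 - ρ'^2)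
  set K : ℝ := (c 0) ^ 2 + (c 1) ^ 2 - (c' 0) ^ 2 - (c' 1) ^ 2 - ρ ^ 2 + ρ' ^ 2 with hK
  have hg : ∀ q : EuclideanSpace ℝ (Fin 2),
      2 * (q 0 * (c' 0 - c 0) + q 1 * (c' 1 - c 1)) + K =
        (dist q c ^ 2 - ρ ^ 2) - (dist q c' ^ 2 - ρ' ^ 2) := by
    intro q
    rw [dist_sq, dist_sq, hK]; ring
  have hA1 : ∀ q ∈ A, 2 * (q 0 * (c' 0 - c 0) + q 1 * (c' 1 - c 1)) + K ≤ 0 := by
    intro q hq
    rw [hg q, ((hmem q).1 hq).2]
    have h1 := hge' q ((hmem q).1 hq).1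
    nlinarith
  have hA2 : ∀ q ∈ A', 0 ≤ 2 * (q 0 * (c' 0 - c 0) + q 1 * (c' 1 - c 1)) + K := by
    intro q hq
    rw [hg q, ((hmem' q).1 hq).2]
    have h1 := hge q ((hmem' q).1 hq).1
    nlinarith
  have hgp : 2 * (p 0 * (c' 0 - c 0) + p 1 * (c' 1 - c 1)) + K = 0 :=
    le_antisymm (hA1 p hp) (hA2 p hp')
  have hc := cell_unique_aux t σ (c 0) (c 1) (c' 0) (c' 1) K (p 0) (p 1) (l 0) (l 1) (r 0) (r 1)
    (l' 0) (l' 1) (r' 0) (r' 1) α β α' β' hα hβ hαβ hα' hβ' hαβ' hgp (hA1 l hl) (hA1 r hr)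
    (hA2 l' hl') (hA2 r' hr') hX hX' hne hup hup'
  have hcc : c = c' := by
    ext i; fin_cases i
    · exact hc.1
    · exact hc.2
  have hρρ : ρ = ρ' := by
    rw [← ((hmem p).1 hp).2, ← ((hmem' p).1 hp').2, hcc]
  ext q
  rw [hmem q, hmem' q, hcc, hρρ]

theorem side_of_middle (F : Finset (EuclideanSpace ℝ (Fin 2))) (R t : ℝ)
    (A : Finset (EuclideanSpace ℝ (Fin 2))) (hA : IsDel F R A)
    (p l r : EuclideanSpace ℝ (Fin 2)) (hp : p ∈ A) (hl : l ∈ A) (hr : r ∈ A)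
    (h1 : l 0 + t * l 1 < p 0 + t * p 1) (h2 : p 0 + t * p 1 < r 0 + t * r 1) :
    Side t 1 A p ∨ Side t (-1) A p := by
  obtain ⟨c, ρ, hρR, hge, hmem⟩ := hA
  set X := l 0 + t * l 1 with hX
  set Y := r 0 + t * r 1 with hY
  set Z := p 0 + t * p 1 with hZ
  have hXY : 0 < Y - X := by linarith
  set α := (Y - Z) / (Y - X) with hα
  set β := (Z - X) / (Y - X) with hβ
  have hα0 : 0 < α := div_pos (by linarith) hXY
  have hβ0 : 0 < β := div_pos (by linarith) hXY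
  have hαβ : α + β = 1 := by
    rw [hα, hβ, ← add_div]
    rw [div_eq_one_iff_eq hXY.ne']
    ring
  have hcomb : α * X + β * Y = Z := by
    rw [hα, hβ]
    field_simp
    ring
  have hne : α * l 1 + β * r 1 - p 1 ≠ 0 := by
    intro h0
    have e1 : p 1 = α * l 1 + β * r 1 := by linarith
    have e0 : p 0 = α * l 0 + β * r 0 := by
      have : α * (l 0 + t * l 1) + β * (r 0 + t * r 1) = p 0 + t * p 1 := hcomb
      rw [e1] at this
      linarith
    have dl : dist l c ^ 2 = ρ ^ 2 := by rw [((hmem l).1 hl).2]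
    have dr : dist r c ^ 2 = ρ ^ 2 := by rw [((hmem r).1 hr).2]
    have dp : dist p c ^ 2 = ρ ^ 2 := by rw [((hmem p).1 hp).2]
    rw [dist_sq] at dl dr dp
    have hb : β = 1 - α := by linarith
    have key : α * β * ((l 0 - r 0) ^ 2 + (l 1 - r 1) ^ 2) = 0 := by
      have : α * ((l 0 - c 0) ^ 2 + (l 1 - c 1) ^ 2) + β * ((r 0 - c 0) ^ 2 + (r 1 - c 1) ^ 2)
          - ((p 0 - c 0) ^ 2 + (p 1 - c 1) ^ 2) = 0 := by
        rw [dl, dr, dp, hb]; ring
      rw [e0, e1, hb] at this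
      rw [hb]
      linarith
    have hpos : 0 < α * β := mul_pos hα0 hβ0
    have h3 : (l 0 - r 0) ^ 2 + (l 1 - r 1) ^ 2 = 0 := by
      rcases mul_eq_zero.1 key with h | h
      · exact absurd h hpos.ne'
      · exact h
    have h33 := (add_eq_zero_iff_of_nonneg (sq_nonneg (l 0 - r 0)) (sq_nonneg (l 1 - r 1))).1 h3
    have h4 : l 0 - r 0 = 0 := pow_eq_zero_iff (two_ne_zero) |>.1 h33.1
    have h5 : l 1 - r 1 = 0 := pow_eq_zero_iff (two_ne_zero) |>.1 h33.2
    have h6 : X = Y := by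
      rw [hX, hY]
      have : l 0 = r 0 := by linarith
      have h7 : l 1 = r 1 := by linarith
      rw [this, h7]
    linarith
  rcases lt_or_gt_of_ne hne with h | h
  · right
    exact ⟨l, hl, r, hr, α, β, hα0, hβ0, hαβ, hcomb, by linarith, by linarith⟩
  · left
    exact ⟨l, hl, r, hr, α, β, hα0, hβ0, hαβ, hcomb, by linarith, by linarith⟩

open Classical in
/-- middle sites with respect to the functional `p 0 + t * p 1` -/
noncomputable def middle (t : ℝ) (A : Finset (EuclideanSpace ℝ (Fin 2))) :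
    Finset (EuclideanSpace ℝ (Fin 2)) :=
  A.filter (fun p => (∃ l ∈ A, l 0 + t * l 1 < p 0 + t * p 1) ∧
    (∃ r ∈ A, p 0 + t * p 1 < r 0 + t * r 1))

theorem card_le_middle (t : ℝ) (A : Finset (EuclideanSpace ℝ (Fin 2)))
    (hinj : ∀ p ∈ A, ∀ q ∈ A, p 0 + t * p 1 = q 0 + t * q 1 → p = q) :
    A.card ≤ (middle t A).card + 2 := by
  classical
  set S1 := A.filter (fun p => ∀ l ∈ A, p 0 + t * p 1 ≤ l 0 + t * l 1) with hS1
  set S2 := A.filter (fun p => ∀ r ∈ A, r 0 + t * r 1 ≤ p 0 + t * p 1) with hS2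
  have h1 : S1.card ≤ 1 := by
    rw [Finset.card_le_one]
    intro a ha b hb
    rw [hS1, Finset.mem_filter] at ha hb
    exact hinj a ha.1 b hb.1 (le_antisymm (ha.2 b hb.1) (hb.2 a ha.1))
  have h2 : S2.card ≤ 1 := by
    rw [Finset.card_le_one]
    intro a ha b hb
    rw [hS2, Finset.mem_filter] at ha hb
    exact hinj a ha.1 b hb.1 (le_antisymm (hb.2 a ha.1) (ha.2 b hb.1))
  have h3 : A ⊆ middle t A ∪ (S1 ∪ S2) := by
    intro p hp
    rw [Finset.mem_union, Finset.mem_union]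
    by_cases ha : ∃ l ∈ A, l 0 + t * l 1 < p 0 + t * p 1
    · by_cases hb : ∃ r ∈ A, p 0 + t * p 1 < r 0 + t * r 1
      · left
        unfold middle
        rw [Finset.mem_filter]
        exact ⟨hp, ha, hb⟩
      · right; right
        rw [hS2, Finset.mem_filter]
        refine ⟨hp, fun r hr => ?_⟩
        by_contra h
        exact hb ⟨r, hr, not_le.1 h⟩
    · right; left
      rw [hS1, Finset.mem_filter]
      refine ⟨hp, fun r hr => ?_⟩
      by_contra h
      exact ha ⟨r, hr, not_le.1 h⟩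
  calc A.card ≤ (middle t A ∪ (S1 ∪ S2)).card := Finset.card_le_card h3
    _ ≤ (middle t A).card + (S1 ∪ S2).card := Finset.card_union_le _ _
    _ ≤ (middle t A).card + (S1.card + S2.card) := by
        gcongr; exact Finset.card_union_le _ _
    _ ≤ (middle t A).card + 2 := by omega

theorem count_bound (F : Finset (EuclideanSpace ℝ (Fin 2))) (R t : ℝ)
    (hinj : ∀ p ∈ F, ∀ q ∈ F, p 0 + t * p 1 = q 0 + t * q 1 → p = q)
    (Q : Finset (Finset (EuclideanSpace ℝ (Fin 2)))) (hQ : ∀ A ∈ Q, IsDel F R A) :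
    ∑ A ∈ Q, (A.card - 2) ≤ 2 * F.card := by
  classical
  have hsub : ∀ A ∈ Q, ∀ p ∈ A, p ∈ F := by
    intro A hA p hp
    obtain ⟨c, ρ, _, _, hmem⟩ := hQ A hA
    exact ((hmem p).1 hp).1
  have h1 : ∑ A ∈ Q, (A.card - 2) ≤ ∑ A ∈ Q, (middle t A).card := by
    apply Finset.sum_le_sum
    intro A hA
    have := card_le_middle t A
      (fun p hp q hq h => hinj p (hsub A hA p hp) q (hsub A hA q hq) h)
    omega
  rw [← Finset.card_sigma] at h1
  refine h1.trans ?_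
  have h2 : (Q.sigma (middle t)).card ≤ (F ×ˢ (Finset.univ : Finset Bool)).card := by
    apply Finset.card_le_card_of_injOn
      (fun x => (x.2, decide (Side t 1 x.1 x.2)))
    · intro x hx
      simp only [Finset.coe_sigma, Set.mem_sigma_iff, Finset.mem_coe] at hx
      have hx2 := hx.2
      unfold middle at hx2
      rw [Finset.mem_filter] at hx2
      simp only [Finset.coe_product, Set.mem_prod, Finset.mem_coe, Finset.mem_univ, and_true]
      exact hsub _ hx.1 _ hx2.1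
    · rintro ⟨A, p⟩ hx ⟨A', p'⟩ hy hxy
      simp only [Finset.coe_sigma, Set.mem_sigma_iff, Finset.mem_coe] at hx hy
      simp only [Prod.mk.injEq] at hxy
      obtain ⟨hpp, hdec⟩ := hxy
      subst hpp
      obtain ⟨hA, hp⟩ := hx
      obtain ⟨hA', hp'⟩ := hy
      unfold middle at hp hp'
      rw [Finset.mem_filter] at hp hp'
      obtain ⟨hpA, ⟨l, hl, hlp⟩, ⟨r, hr, hrp⟩⟩ := hp
      obtain ⟨hpA', ⟨l', hl', hlp'⟩, ⟨r', hr', hrp'⟩⟩ := hp'
      have s1 := side_of_middle F R t A (hQ A hA) p l r hpA hl hr hlp hrp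
      have s2 := side_of_middle F R t A' (hQ A' hA') p l' r' hpA' hl' hr' hlp' hrp'
      have hAA : A = A' := by
        by_cases h : Side t 1 A p
        · have h' : Side t 1 A' p := by
            have : decide (Side t 1 A' p) = true := by rw [← hdec]; simpa using h
            simpa using this
          exact side_unique F R t 1 A A' (hQ A hA) (hQ A' hA') p hpA hpA' h h'
        · have h' : ¬ Side t 1 A' p := by
            intro h'
            have : decide (Side t 1 A p) = true := by rw [hdec]; simpa using h'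
            exact h (by simpa using this)
          exact side_unique F R t (-1) A A' (hQ A hA) (hQ A' hA') p hpA hpA'
            (s1.resolve_left h) (s2.resolve_left h')
      rw [hAA]
  refine h2.trans ?_
  rw [Finset.card_product]
  simp [mul_comm]

end Pool.Agent.Helper658
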