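import Pool.Agent.Helper658.Tiling

set_option autoImplicit false

open MeasureTheory Metric Set Filter Topology

namespace Pool.Agent.Helper658.Tiling

open Pool.Agent.Helper658.Cover

/-- half-open period box based at a lattice translate of `v` -/
noncomputable def box (v : ℤ × ℤ) (p : ℤ × ℤ) : Set (EuclideanSpace ℝ (Fin 2)) :=
  (@WithLp.ofLp 2 (Fin 2 → ℝ)) ⁻¹' (Set.pi univ fun i =>
    Ico (pt v p.1 p.2 i) (pt v p.1 p.2 i + (![3.167, 2.49] : Fin 2 → ℝ) i))

theorem mem_box (v p : ℤ × ℤ) (x : EuclideanSpace ℝ (Fin 2)) (hx : x ∈ box v p) :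
    (pt v p.1 p.2 0 ≤ x 0 ∧ x 0 < pt v p.1 p.2 0 + 3.167) ∧
    (pt v p.1 p.2 1 ≤ x 1 ∧ x 1 < pt v p.1 p.2 1 + 2.49) := by
  have h : ∀ i, i ∈ (univ : Set (Fin 2)) → x i ∈
    Ico (pt v p.1 p.2 i) (pt v p.1 p.2 i + (![3.167, 2.49] : Fin 2 → ℝ) i) := hx
  exact ⟨h 0 (mem_univ _), h 1 (mem_univ _)⟩

theorem box_meas (v p : ℤ × ℤ) : MeasurableSet (box v p) := by
  unfold box
  exact (PiLp.volume_preserving_ofLp (Fin 2)).measurable
    (MeasurableSet.univ_pi fun i => measurableSet_Ico)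

theorem box_vol (v p : ℤ × ℤ) : volume (box v p) = ENNReal.ofReal (3.167 * 2.49) := by
  unfold box
  rw [(PiLp.volume_preserving_ofLp (Fin 2)).measure_preimage
    (MeasurableSet.univ_pi fun i => measurableSet_Ico).nullMeasurableSet, Real.volume_pi_Ico]
  rw [Fin.prod_univ_two, ENNReal.ofReal_mul (by norm_num)]
  simp

theorem box_disj (v : ℤ × ℤ) : Pairwise (Function.onFun Disjoint (box v)) := by
  intro p q hpq
  rw [Function.onFun, Set.disjoint_left]
  intro x hx hy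
  apply hpq
  obtain ⟨⟨a1, a2⟩, ⟨a3, a4⟩⟩ := mem_box v p x hx
  obtain ⟨⟨b1, b2⟩, ⟨b3, b4⟩⟩ := mem_box v q x hy
  rw [pt_zero] at a1 a2 b1 b2
  rw [pt_one] at a3 a4 b3 b4
  unfold Wz at a1 a2 b1 b2
  unfold Hz at a3 a4 b3 b4
  push_cast at a1 a2 a3 a4 b1 b2 b3 b4
  have h1 : (p.1 : ℝ) < q.1 + 1 := by linarith
  have h2 : (q.1 : ℝ) < p.1 + 1 := by linarith
  have h3 : (p.2 : ℝ) < q.2 + 1 := by linarith
  have h4 : (q.2 : ℝ) < p.2 + 1 := by linarith
  have h1' : p.1 < q.1 + 1 := by exact_mod_cast h1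
  have h2' : q.1 < p.1 + 1 := by exact_mod_cast h2
  have h3' : p.2 < q.2 + 1 := by exact_mod_cast h3
  have h4' : q.2 < p.2 + 1 := by exact_mod_cast h4
  ext
  · omega
  · omega

theorem box_sub (v p : ℤ × ℤ) (r : ℝ)
    (hp : pt v p.1 p.2 ∈ closedBall (0 : EuclideanSpace ℝ (Fin 2)) r) :
    box v p ⊆ closedBall (0 : EuclideanSpace ℝ (Fin 2)) (r + 5) := by
  intro x hx
  obtain ⟨⟨a1, a2⟩, ⟨a3, a4⟩⟩ := mem_box v p x hx
  rw [mem_closedBall] at hp ⊢
  have h1 : dist x (pt v p.1 p.2) ≤ 5 := by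
    rw [EuclideanSpace.dist_eq, Fin.sum_univ_two, Real.dist_eq, Real.dist_eq, sq_abs, sq_abs,
      Real.sqrt_le_iff]
    refine ⟨by norm_num, ?_⟩
    have b1 : 0 ≤ x 0 - pt v p.1 p.2 0 := by linarith
    have b2 : x 0 - pt v p.1 p.2 0 ≤ 3.2 := by linarith
    have b3 : 0 ≤ x 1 - pt v p.1 p.2 1 := by linarith
    have b4 : x 1 - pt v p.1 p.2 1 ≤ 3 := by linarith
    nlinarith
  have := dist_triangle x (pt v p.1 p.2) 0
  linarith

theorem lattice_count (v : ℤ × ℤ) (r : ℝ) :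
    ((({p : ℤ × ℤ | pt v p.1 p.2 ∈ closedBall (0 : EuclideanSpace ℝ (Fin 2)) r}.encard : ℕ∞)) :
      ENNReal) * ENNReal.ofReal (3.167 * 2.49) ≤
      volume (closedBall (0 : EuclideanSpace ℝ (Fin 2)) (r + 5)) := by
  set S : Set (ℤ × ℤ) :=
    {p : ℤ × ℤ | pt v p.1 p.2 ∈ closedBall (0 : EuclideanSpace ℝ (Fin 2)) r} with hS
  have h1 : volume (⋃ p : S, box v p.1) = ∑' p : S, volume (box v p.1) := by
    apply measure_iUnion
    · intro p q hpq
      exact box_disj v (fun h => hpq (Subtype.ext h))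
    · intro p; exact box_meas v p.1
  have h2 : ∑' p : S, volume (box v p.1) = (S.encard : ENNReal) * ENNReal.ofReal (3.167 * 2.49) := by
    rw [← ENNReal.tsum_set_const]
    congr 1
    ext p
    exact box_vol v p.1
  rw [← h2, ← h1]
  apply measure_mono
  apply iUnion_subset
  rintro ⟨p, hp⟩
  exact box_sub v p r hp

/-- the family of all cells -/
def C : Set (Set (EuclideanSpace ℝ (Fin 2))) := {K | ∃ i m n, K = cell i m n}

theorem C_count (r : ℝ) :
    ((({K ∈ C | K ⊆ closedBall (0 : EuclideanSpace ℝ (Fin 2)) r}.encard : ℕ∞)) : ENNReal) *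
      ENNReal.ofReal (3.167 * 2.49) ≤
      12 * volume (closedBall (0 : EuclideanSpace ℝ (Fin 2)) (r + 5)) := by
  set T : Fin 12 → Set (ℤ × ℤ) := fun i =>
    {p : ℤ × ℤ | pt ((cv i).headD (0, 0)) p.1 p.2 ∈
      closedBall (0 : EuclideanSpace ℝ (Fin 2)) r} with hT
  have hsub : {K ∈ C | K ⊆ closedBall (0 : EuclideanSpace ℝ (Fin 2)) r} ⊆
      ⋃ i : Fin 12, (fun p : ℤ × ℤ => cell i p.1 p.2) '' (T i) := by
    rintro K ⟨⟨i, m, n, rfl⟩, hK⟩
    rw [mem_iUnion]
    refine ⟨i, (m, n), ?_, rfl⟩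
    show pt ((cv i).headD (0, 0)) m n ∈ closedBall (0 : EuclideanSpace ℝ (Fin 2)) r
    apply hK
    exact subset_convexHull ℝ _ ⟨(cv i).headD (0, 0), head_check i, rfl⟩
  have h1 : {K ∈ C | K ⊆ closedBall (0 : EuclideanSpace ℝ (Fin 2)) r}.encard ≤
      ∑ i : Fin 12, (T i).encard := by
    refine (encard_le_encard hsub).trans ((encard_iUnion_le_of_fintype _).trans ?_)
    apply Finset.sum_le_sum
    intro i _
    exact encard_image_le _ _
  have h2 : ((({K ∈ C | K ⊆ closedBall (0 : EuclideanSpace ℝ (Fin 2)) r}.encard : ℕ∞)) : ENNReal) ≤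
      ∑ i : Fin 12, ((T i).encard : ENNReal) := by
    have := ENat.toENNReal_le.2 h1
    refine this.trans (le_of_eq ?_)
    exact map_sum ENat.toENNRealRingHom _ _
  calc _ ≤ (∑ i : Fin 12, ((T i).encard : ENNReal)) * ENNReal.ofReal (3.167 * 2.49) := by
        gcongr
    _ = ∑ i : Fin 12, ((T i).encard : ENNReal) * ENNReal.ofReal (3.167 * 2.49) :=
        Finset.sum_mul _ _ _
    _ ≤ ∑ i : Fin 12, volume (closedBall (0 : EuclideanSpace ℝ (Fin 2)) (r + 5)) :=
        Finset.sum_le_sum (fun i _ => lattice_count _ r)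
    _ = 12 * volume (closedBall (0 : EuclideanSpace ℝ (Fin 2)) (r + 5)) := by
        rw [Finset.sum_const, Finset.card_univ, Fintype.card_fin, nsmul_eq_mul]
        norm_num

theorem C_liminf : Filter.liminf
        (fun r : ℝ =>
          ((({K ∈ C | K ⊆ closedBall (0 : EuclideanSpace ℝ (Fin 2)) r}.encard : ℕ∞) : ENNReal)) /
            volume (closedBall (0 : EuclideanSpace ℝ (Fin 2)) r))
        Filter.atTop ≤ ENNReal.ofReal 1.529 := by
  refine Filter.liminf_le_of_frequently_le' (Filter.Eventually.frequently ?_)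
  filter_upwards [eventually_ge_atTop (10000 : ℝ)] with r hr
  have h := C_count r
  set N := ((({K ∈ C | K ⊆ closedBall (0 : EuclideanSpace ℝ (Fin 2)) r}.encard : ℕ∞) : ENNReal))
  apply ENNReal.div_le_of_le_mul
  have e1 := Measure.addHaar_closedBall (volume : Measure (EuclideanSpace ℝ (Fin 2)))
    (0 : EuclideanSpace ℝ (Fin 2)) (r := r) (by linarith)
  have e2 := Measure.addHaar_closedBall (volume : Measure (EuclideanSpace ℝ (Fin 2)))
    (0 : EuclideanSpace ℝ (Fin 2)) (r := r + 5) (by linarith)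
  rw [finrank_euclideanSpace_fin] at e1 e2
  rw [e2] at h
  rw [e1]
  set V := volume (ball (0 : EuclideanSpace ℝ (Fin 2)) 1)
  set a := ENNReal.ofReal (3.167 * 2.49) with ha
  have ha0 : a ≠ 0 := (ENNReal.ofReal_pos.2 (by norm_num)).ne'
  have hat : a ≠ ⊤ := ENNReal.ofReal_ne_top
  have key : a * N ≤ a * (ENNReal.ofReal 1.529 * (ENNReal.ofReal (r ^ 2) * V)) := by
    have e3 : a * (ENNReal.ofReal 1.529 * (ENNReal.ofReal (r ^ 2) * V)) =
        (ENNReal.ofReal (3.167 * 2.49 * 1.529 * r ^ 2)) * V := by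
      rw [ENNReal.ofReal_mul (by norm_num), ENNReal.ofReal_mul (by norm_num), ← ha]
      ring
    rw [e3, mul_comm a N]
    refine h.trans ?_
    have e4 : 12 * (ENNReal.ofReal ((r + 5) ^ 2) * V) = ENNReal.ofReal (12 * (r + 5) ^ 2) * V := by
      rw [ENNReal.ofReal_mul (by norm_num)]
      have : ENNReal.ofReal 12 = 12 := by norm_num
      rw [this]; ring
    rw [e4]
    refine mul_le_mul' (ENNReal.ofReal_le_ofReal ?_) le_rfl
    nlinarith
  exact (ENNReal.mul_le_mul_iff_right ha0 hat).1 key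

end Pool.Agent.Helper658.Tiling
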