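import Mathlib

set_option autoImplicit false

open MeasureTheory Metric Set Filter Topology

namespace Pool.Agent.Helper658.Cover

/-- orientation determinant -/
def D (a b x : EuclideanSpace ℝ (Fin 2)) : ℝ :=
  (b 0 - a 0) * (x 1 - a 1) - (b 1 - a 1) * (x 0 - a 0)

theorem D_cont (a b : EuclideanSpace ℝ (Fin 2)) : Continuous (fun x => D a b x) := by
  unfold D; fun_prop

theorem D_swap (a b x : EuclideanSpace ℝ (Fin 2)) : D b a x = - D a b x := by
  unfold D; ring

/-- closed triangle given by its three half planes -/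
def triSet (P Q R : EuclideanSpace ℝ (Fin 2)) : Set (EuclideanSpace ℝ (Fin 2)) :=
  {x | 0 ≤ D P Q x ∧ 0 ≤ D Q R x ∧ 0 ≤ D R P x}

theorem triSet_closed (P Q R : EuclideanSpace ℝ (Fin 2)) : IsClosed (triSet P Q R) := by
  unfold triSet
  exact (isClosed_le continuous_const (D_cont P Q)).inter
    ((isClosed_le continuous_const (D_cont Q R)).inter (isClosed_le continuous_const (D_cont R P)))

theorem triSet_rot (P Q R : EuclideanSpace ℝ (Fin 2)) : triSet P Q R = triSet Q R P := by
  ext x; unfold triSet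
  constructor
  · rintro ⟨a, b, c⟩; exact ⟨b, c, a⟩
  · rintro ⟨a, b, c⟩; exact ⟨c, a, b⟩

theorem D_sum (P Q R x : EuclideanSpace ℝ (Fin 2)) : D P Q x + D Q R x + D R P x = D P Q R := by
  unfold D; ring

theorem D_rot (P Q R : EuclideanSpace ℝ (Fin 2)) : D Q R P = D P Q R := by
  unfold D; ring

theorem bary (P Q R x : EuclideanSpace ℝ (Fin 2)) (h : D P Q R ≠ 0) :
    x = (D Q R x / D P Q R) • P + (D R P x / D P Q R) • Q + (D P Q x / D P Q R) • R := by
  have h0 : D P Q R * x 0 = D Q R x * P 0 + D R P x * Q 0 + D P Q x * R 0 := by unfold D; ring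
  have h1 : D P Q R * x 1 = D Q R x * P 1 + D R P x * Q 1 + D P Q x * R 1 := by unfold D; ring
  ext i
  fin_cases i
  · simp only [Fin.zero_eta, PiLp.add_apply, PiLp.smul_apply, smul_eq_mul]
    field_simp
    linarith
  · simp only [Fin.mk_one, PiLp.add_apply, PiLp.smul_apply, smul_eq_mul]
    field_simp
    linarith

theorem triSet_subset_hull (P Q R : EuclideanSpace ℝ (Fin 2)) (h : 0 < D P Q R) :
    triSet P Q R ⊆ convexHull ℝ {P, Q, R} := by
  rintro x ⟨h1, h2, h3⟩
  have hs := D_sum P Q R x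
  rw [bary P Q R x h.ne']
  have hT : Convex ℝ (convexHull ℝ {P, Q, R}) := convex_convexHull ℝ _
  have hmem : ∀ y ∈ ({P, Q, R} : Set (EuclideanSpace ℝ (Fin 2))),
    y ∈ convexHull ℝ {P, Q, R} := fun y hy => subset_convexHull ℝ _ hy
  have := hT.sum_mem (t := (Finset.univ : Finset (Fin 3)))
    (w := ![D Q R x / D P Q R, D R P x / D P Q R, D P Q x / D P Q R]) (z := ![P, Q, R]) ?_ ?_ ?_
  · simpa [Fin.sum_univ_three] using this
  · intro i _
    fin_cases i
    · exact div_nonneg h2 h.le
    · exact div_nonneg h3 h.le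
    · exact div_nonneg h1 h.le
  · rw [Fin.sum_univ_three]
    show D Q R x / D P Q R + D R P x / D P Q R + D P Q x / D P Q R = 1
    rw [← add_div, ← add_div, div_eq_one_iff_eq h.ne']
    linarith
  · intro i _
    fin_cases i
    · exact hmem _ (by simp)
    · exact hmem _ (by simp)
    · exact hmem _ (by simp)

/-- a vertex is determined by two vanishing barycentric coordinates -/
theorem vertex_of_two (P Q R x : EuclideanSpace ℝ (Fin 2)) (h : 0 < D P Q R)
    (h1 : D P Q x = 0) (h2 : D R P x = 0) : x = P := by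
  have hs := D_sum P Q R x
  have h3 : D Q R x = D P Q R := by linarith
  have hb := bary P Q R x h.ne'
  rw [h1, h2, h3, div_self h.ne'] at hb
  simpa using hb

theorem edge_nhds (P Q R S x : EuclideanSpace ℝ (Fin 2)) (h : 0 < D P Q R) (h' : 0 < D Q P S)
    (h0 : D P Q x = 0) (h1 : 0 < D Q R x) (h2 : 0 < D R P x) :
    ∀ᶠ y in 𝓝 x, y ∈ triSet P Q R ∨ y ∈ triSet Q P S := by
  have h3 : 0 < D P S x := by
    have e : D P Q R * D P S x = D R P x * D Q P S + D P Q x * D P S R := by
      unfold D; ring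
    rw [h0, zero_mul, add_zero] at e
    have : 0 < D P Q R * D P S x := by rw [e]; exact mul_pos h2 h'
    exact (mul_pos_iff_of_pos_left h).1 this
  have h4 : 0 < D S Q x := by
    have e : D P Q R * D S Q x = D Q R x * D Q P S + D P Q x * D S Q R := by
      unfold D; ring
    rw [h0, zero_mul, add_zero] at e
    have : 0 < D P Q R * D S Q x := by rw [e]; exact mul_pos h1 h'
    exact (mul_pos_iff_of_pos_left h).1 this
  have c1 := ((D_cont Q R).tendsto x).eventually (lt_mem_nhds h1)
  have c2 := ((D_cont R P).tendsto x).eventually (lt_mem_nhds h2)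
  have c3 := ((D_cont P S).tendsto x).eventually (lt_mem_nhds h3)
  have c4 := ((D_cont S Q).tendsto x).eventually (lt_mem_nhds h4)
  filter_upwards [c1, c2, c3, c4] with y y1 y2 y3 y4
  rcases le_total 0 (D P Q y) with hy | hy
  · left; exact ⟨hy, y1.le, y2.le⟩
  · right
    refine ⟨?_, y3.le, y4.le⟩
    rw [D_swap]; linarith

theorem triSet_interior (P Q R : EuclideanSpace ℝ (Fin 2)) (hpi : 0 < D P Q R) :
    (interior (triSet P Q R)).Nonempty := by
  set g : EuclideanSpace ℝ (Fin 2) := (1/3 : ℝ) • P + (1/3 : ℝ) • Q + (1/3 : ℝ) • R with hg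
  refine ⟨g, ?_⟩
  rw [mem_interior_iff_mem_nhds]
  have g0 : g 0 = (1/3 : ℝ) * P 0 + (1/3 : ℝ) * Q 0 + (1/3 : ℝ) * R 0 := by
    simp [hg]
  have g1 : g 1 = (1/3 : ℝ) * P 1 + (1/3 : ℝ) * Q 1 + (1/3 : ℝ) * R 1 := by
    simp [hg]
  have p1 : 0 < D P Q g := by
    have : D P Q g = D P Q R / 3 := by
      unfold D; rw [g0, g1]; ring
    rw [this]; linarith
  have p2 : 0 < D Q R g := by
    have : D Q R g = D P Q R / 3 := by
      unfold D; rw [g0, g1]; ring
    rw [this]; linarith
  have p3 : 0 < D R P g := by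
    have : D R P g = D P Q R / 3 := by
      unfold D; rw [g0, g1]; ring
    rw [this]; linarith
  have c1 := ((D_cont P Q).tendsto g).eventually (lt_mem_nhds p1)
  have c2 := ((D_cont Q R).tendsto g).eventually (lt_mem_nhds p2)
  have c3 := ((D_cont R P).tendsto g).eventually (lt_mem_nhds p3)
  filter_upwards [c1, c2, c3] with y y1 y2 y3
  exact ⟨y1.le, y2.le, y3.le⟩

/-- A locally finite family of nondegenerate triangles in which every edge is covered from the
other side by a triangle of the union covers the plane. -/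
theorem tri_cover {ι : Type*} [Countable ι] [Nonempty ι] (P Q R : ι → EuclideanSpace ℝ (Fin 2))
    (hpos : ∀ i, 0 < D (P i) (Q i) (R i))
    (hlf : LocallyFinite (fun i => triSet (P i) (Q i) (R i)))
    (hPQ : ∀ i, ∃ S, 0 < D (Q i) (P i) S ∧
      triSet (Q i) (P i) S ⊆ ⋃ i, triSet (P i) (Q i) (R i))
    (hQR : ∀ i, ∃ S, 0 < D (R i) (Q i) S ∧
      triSet (R i) (Q i) S ⊆ ⋃ i, triSet (P i) (Q i) (R i))
    (hRP : ∀ i, ∃ S, 0 < D (P i) (R i) S ∧
      triSet (P i) (R i) S ⊆ ⋃ i, triSet (P i) (Q i) (R i)) :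
    ⋃ i, triSet (P i) (Q i) (R i) = univ := by
  set U := ⋃ i, triSet (P i) (Q i) (R i) with hU
  have hUc : IsClosed U := hlf.isClosed_iUnion (fun i => triSet_closed _ _ _)
  set V : Set (EuclideanSpace ℝ (Fin 2)) := range P ∪ range Q ∪ range R with hV
  have hVc : V.Countable := ((countable_range P).union (countable_range Q)).union
    (countable_range R)
  have hVU : V ⊆ U := by
    have hmem : ∀ i, ∀ x, x ∈ triSet (P i) (Q i) (R i) → x ∈ U :=
      fun i x hx => mem_iUnion.2 ⟨i, hx⟩
    rintro x ((⟨i, rfl⟩ | ⟨i, rfl⟩) | ⟨i, rfl⟩)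
    · apply hmem i
      refine ⟨le_of_eq ?_, ?_, le_of_eq ?_⟩
      · unfold D; ring
      · rw [D_rot]; exact (hpos i).le
      · unfold D; ring
    · apply hmem i
      refine ⟨le_of_eq ?_, le_of_eq ?_, ?_⟩
      · unfold D; ring
      · unfold D; ring
      · rw [D_rot, D_rot]; exact (hpos i).le
    · apply hmem i
      refine ⟨(hpos i).le, le_of_eq ?_, le_of_eq ?_⟩
      · unfold D; ring
      · unfold D; ring
  -- one-edge lemma
  have hedge : ∀ (A B C x : EuclideanSpace ℝ (Fin 2)), 0 < D A B C → triSet A B C ⊆ U →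
      (∃ S, 0 < D B A S ∧ triSet B A S ⊆ U) → D A B x = 0 → 0 < D B C x → 0 < D C A x →
      U ∈ 𝓝 x := by
    rintro A B C x hABC hsub ⟨S, hS, hSU⟩ h0 h1 h2
    filter_upwards [edge_nhds A B C S x hABC hS h0 h1 h2] with y hy
    rcases hy with hy | hy
    · exact hsub hy
    · exact hSU hy
  have hint : ∀ x ∈ U, x ∉ V → U ∈ 𝓝 x := by
    intro x hx hxV
    obtain ⟨i, h1, h2, h3⟩ := mem_iUnion.1 hx
    have hsub : triSet (P i) (Q i) (R i) ⊆ U := fun y hy => mem_iUnion.2 ⟨i, hy⟩
    have hpi := hpos i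
    have nP : x ≠ P i := fun h => hxV (Or.inl (Or.inl ⟨i, h.symm⟩))
    have nQ : x ≠ Q i := fun h => hxV (Or.inl (Or.inr ⟨i, h.symm⟩))
    have nR : x ≠ R i := fun h => hxV (Or.inr ⟨i, h.symm⟩)
    rcases h1.eq_or_lt with z1 | p1
    · -- D P Q x = 0
      rcases h2.eq_or_lt with z2 | p2
      · exfalso
        apply nQ
        exact vertex_of_two (Q i) (R i) (P i) x (by rw [D_rot]; exact hpi) z2.symm z1.symm
      · rcases h3.eq_or_lt with z3 | p3
        · exfalso
          apply nP
          exact vertex_of_two (P i) (Q i) (R i) x hpi z1.symm z3.symm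
        · exact hedge (P i) (Q i) (R i) x hpi hsub (hPQ i) z1.symm p2 p3
    · rcases h2.eq_or_lt with z2 | p2
      · rcases h3.eq_or_lt with z3 | p3
        · exfalso
          apply nR
          exact vertex_of_two (R i) (P i) (Q i) x (by rw [D_rot, D_rot]; exact hpi) z3.symm z2.symm
        · refine hedge (Q i) (R i) (P i) x (by rw [D_rot]; exact hpi) ?_ (hQR i) z2.symm p3 p1
          rw [← triSet_rot]; exact hsub
      · rcases h3.eq_or_lt with z3 | p3
        · refine hedge (R i) (P i) (Q i) x (by rw [D_rot, D_rot]; exact hpi) ?_ (hRP i) z3.symm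
            p1 p2
          rw [← triSet_rot, ← triSet_rot]; exact hsub
        · have c1 := ((D_cont (P i) (Q i)).tendsto x).eventually (lt_mem_nhds p1)
          have c2 := ((D_cont (Q i) (R i)).tendsto x).eventually (lt_mem_nhds p2)
          have c3 := ((D_cont (R i) (P i)).tendsto x).eventually (lt_mem_nhds p3)
          filter_upwards [c1, c2, c3] with y y1 y2 y3
          exact hsub ⟨y1.le, y2.le, y3.le⟩
  -- connectedness
  have hrank : 1 < Module.rank ℝ (EuclideanSpace ℝ (Fin 2)) := by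
    rw [← Module.finrank_eq_rank, finrank_euclideanSpace_fin]
    norm_num
  have hconn := (hVc.isConnected_compl_of_one_lt_rank hrank).isPreconnected
  by_contra hne
  obtain ⟨y, hy⟩ : ∃ y, y ∉ U := by
    by_contra h
    push Not at h
    exact hne (eq_univ_of_forall h)
  have hyV : y ∈ Vᶜ := fun h => hy (hVU h)
  -- interior point
  obtain ⟨i⟩ := (inferInstance : Nonempty ι)
  have hIne : (interior U).Nonempty := by
    -- take the centroid
    set g : EuclideanSpace ℝ (Fin 2) := (1/3 : ℝ) • P i + (1/3 : ℝ) • Q i + (1/3 : ℝ) • R i with hg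
    have hpi := hpos i
    refine ⟨g, ?_⟩
    rw [mem_interior_iff_mem_nhds]
    have g0 : g 0 = (1/3 : ℝ) * P i 0 + (1/3 : ℝ) * Q i 0 + (1/3 : ℝ) * R i 0 := by
      simp [hg]
    have g1 : g 1 = (1/3 : ℝ) * P i 1 + (1/3 : ℝ) * Q i 1 + (1/3 : ℝ) * R i 1 := by
      simp [hg]
    have p1 : 0 < D (P i) (Q i) g := by
      have : D (P i) (Q i) g = D (P i) (Q i) (R i) / 3 := by
        unfold D; rw [g0, g1]; ring
      rw [this]; linarith
    have p2 : 0 < D (Q i) (R i) g := by
      have : D (Q i) (R i) g = D (P i) (Q i) (R i) / 3 := by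
        unfold D; rw [g0, g1]; ring
      rw [this]; linarith
    have p3 : 0 < D (R i) (P i) g := by
      have : D (R i) (P i) g = D (P i) (Q i) (R i) / 3 := by
        unfold D; rw [g0, g1]; ring
      rw [this]; linarith
    have c1 := ((D_cont (P i) (Q i)).tendsto g).eventually (lt_mem_nhds p1)
    have c2 := ((D_cont (Q i) (R i)).tendsto g).eventually (lt_mem_nhds p2)
    have c3 := ((D_cont (R i) (P i)).tendsto g).eventually (lt_mem_nhds p3)
    filter_upwards [c1, c2, c3] with y y1 y2 y3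
    exact mem_iUnion.2 ⟨i, y1.le, y2.le, y3.le⟩
  have hdense : Dense Vᶜ := hVc.dense_compl ℝ
  obtain ⟨z, hz1, hz2⟩ := hdense.inter_open_nonempty (interior U) isOpen_interior hIne
  have hcontr := hconn (interior U) Uᶜ isOpen_interior hUc.isOpen_compl (by
    intro w hw
    by_cases hwU : w ∈ U
    · left; rw [mem_interior_iff_mem_nhds]; exact hint w hwU hw
    · right; exact hwU) ⟨z, hz2, hz1⟩ ⟨y, hyV, hy⟩
  obtain ⟨w, _, hw1, hw2⟩ := hcontr
  exact hw2 (interior_subset hw1)

end Pool.Agent.Helper658.Cover
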