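import Mathlib

set_option autoImplicit false

open MeasureTheory Metric Set Filter Topology
open scoped RealInnerProductSpace

namespace Pool.Agent.Helper658

/-- Existence of a Delaunay cell around a point `x` (finite set of sites `F`). -/
theorem exists_delaunay (F : Finset (EuclideanSpace ℝ (Fin 2))) (hF : F.Nonempty)
    (x : EuclideanSpace ℝ (Fin 2)) (hx : x ∉ F) (R : ℝ) (hR : 0 < R)
    (hcov : ∀ c ∈ closedBall x R, ∃ p ∈ F, dist p c ≤ R) :
    ∃ c : EuclideanSpace ℝ (Fin 2), ∃ ρ : ℝ, ρ ≤ R ∧ (∀ p ∈ F, ρ ≤ dist p c) ∧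
      x ∈ convexHull ℝ {p : EuclideanSpace ℝ (Fin 2) | p ∈ F ∧ dist p c = ρ} := by
  classical
  set g : EuclideanSpace ℝ (Fin 2) → EuclideanSpace ℝ (Fin 2) → ℝ :=
    fun p c => ‖p - c‖ ^ 2 - ‖x - c‖ ^ 2 with hg
  set G : EuclideanSpace ℝ (Fin 2) → ℝ := fun c => F.inf' hF (fun p => g p c) with hG
  have hgc : ∀ p, Continuous (g p) := by
    intro p; simp only [hg]; fun_prop
  have hGc : Continuous G := by
    simp only [hG]
    exact Continuous.finset_inf'_apply hF (fun p _ => hgc p)
  obtain ⟨c, hc, hmax⟩ := (isCompact_closedBall x R).exists_isMaxOn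
    ⟨x, mem_closedBall_self hR.le⟩ hGc.continuousOn
  have hGx : 0 < G x := by
    simp only [hG]
    rw [Finset.lt_inf'_iff]
    intro p hp
    have : p - x ≠ 0 := by
      intro h
      apply hx
      rw [← sub_eq_zero.mp h]; exact hp
    have h2 : 0 < ‖p - x‖ := norm_pos_iff.mpr this
    have h3 : 0 < ‖p - x‖ ^ 2 := by positivity
    simp only [hg, sub_self, norm_zero]
    linarith
  have hGxc : G x ≤ G c := hmax (mem_closedBall_self hR.le)
  have hGpos : 0 < G c := lt_of_lt_of_le hGx hGxc
  obtain ⟨p0, hp0, hp0c⟩ := hcov c hc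
  have hGle : G c ≤ R ^ 2 - ‖x - c‖ ^ 2 := by
    have h1 : G c ≤ g p0 c := Finset.inf'_le _ hp0
    have h2 : ‖p0 - c‖ ≤ R := by rwa [dist_eq_norm] at hp0c
    have h3 : ‖p0 - c‖ ^ 2 ≤ R ^ 2 := by
      have := norm_nonneg (p0 - c)
      nlinarith
    simp only [hg] at h1
    linarith
  have hcball : ‖x - c‖ < R := by
    have h1 : ‖x - c‖ ^ 2 < R ^ 2 := by linarith
    exact lt_of_pow_lt_pow_left₀ 2 hR.le h1
  set m := G c with hm
  set ρ : ℝ := Real.sqrt (m + ‖x - c‖ ^ 2) with hρ
  have hρsq : ρ ^ 2 = m + ‖x - c‖ ^ 2 := by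
    rw [hρ, Real.sq_sqrt]; positivity
  have hρ0 : 0 ≤ ρ := Real.sqrt_nonneg _
  have hge : ∀ p ∈ F, ρ ≤ dist p c := by
    intro p hp
    have h1 : m ≤ g p c := Finset.inf'_le _ hp
    rw [dist_eq_norm]
    have h2 : ρ ^ 2 ≤ ‖p - c‖ ^ 2 := by
      simp only [hg] at h1
      linarith
    exact le_of_sq_le_sq h2 (norm_nonneg _)
  refine ⟨c, ρ, ?_, hge, ?_⟩
  · have h1 : ρ ^ 2 ≤ R ^ 2 := by rw [hρsq]; linarith
    exact le_of_sq_le_sq h1 hR.le
  · by_contra hnot
    have hfin : {p : EuclideanSpace ℝ (Fin 2) | p ∈ F ∧ dist p c = ρ}.Finite :=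
      F.finite_toSet.subset (fun p hp => hp.1)
    obtain ⟨f, u, hfu, hux⟩ := geometric_hahn_banach_closed_point
      (convex_convexHull ℝ _) (hfin.isCompact_convexHull (𝕜 := ℝ)).isClosed hnot
    set v := (InnerProductSpace.toDual ℝ (EuclideanSpace ℝ (Fin 2))).symm f with hv
    have hfv : ∀ y, f y = ⟪v, y⟫ := by
      intro y
      rw [hv, InnerProductSpace.toDual_symm_apply]
    -- moving the centre in direction v improves G
    have key : ∀ p ∈ F, ∀ᶠ ε : ℝ in 𝓝[>] 0, m < g p (c + ε • v) := by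
      intro p hp
      by_cases hpA : dist p c = ρ
      · have hlt : ⟪v, p - x⟫ < 0 := by
          have h1 : f p < u := hfu p (subset_convexHull ℝ _ ⟨hp, hpA⟩)
          rw [inner_sub_right, ← hfv, ← hfv]; linarith
        filter_upwards [self_mem_nhdsWithin] with ε hε
        have hε' : 0 < ε := hε
        have h1 : g p (c + ε • v) = g p c - 2 * ε * ⟪v, p - x⟫ := by
          simp only [hg]
          have e1 : p - (c + ε • v) = (p - c) - ε • v := by abel
          have e2 : x - (c + ε • v) = (x - c) - ε • v := by abel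
          rw [e1, e2, norm_sub_sq_real (p - c) (ε • v), norm_sub_sq_real (x - c) (ε • v),
            inner_smul_right, inner_smul_right]
          have e3 : ⟪v, p - x⟫ = ⟪p - c, v⟫ - ⟪x - c, v⟫ := by
            rw [real_inner_comm, ← inner_sub_left]; congr 1; abel
          rw [e3]; ring
        have h2 : g p c = m := by
          simp only [hg]
          rw [dist_eq_norm] at hpA
          rw [hpA, hρsq]; ring
        rw [h1, h2]
        nlinarith
      · have h1 : m < g p c := by
          have h2 : ρ < dist p c := lt_of_le_of_ne (hge p hp) (Ne.symm hpA)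
          rw [dist_eq_norm] at h2
          have h3 : ρ ^ 2 < ‖p - c‖ ^ 2 := by
            have := norm_nonneg (p - c)
            nlinarith
          simp only [hg]; linarith
        have hcont : Continuous (fun ε : ℝ => g p (c + ε • v)) := by
          exact (hgc p).comp (by fun_prop)
        have h2 : Tendsto (fun ε : ℝ => g p (c + ε • v)) (𝓝[>] 0) (𝓝 (g p c)) := by
          have := hcont.tendsto 0
          simp only [zero_smul, add_zero] at this
          exact this.mono_left nhdsWithin_le_nhds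
        exact h2.eventually (lt_mem_nhds h1)
    have key2 : ∀ᶠ ε : ℝ in 𝓝[>] 0, ∀ p ∈ F, m < g p (c + ε • v) :=
      (Finset.eventually_all F).mpr key
    have key3 : ∀ᶠ ε : ℝ in 𝓝[>] 0, c + ε • v ∈ closedBall x R := by
      have hcont : Continuous (fun ε : ℝ => ‖x - (c + ε • v)‖) := by fun_prop
      have h2 : Tendsto (fun ε : ℝ => ‖x - (c + ε • v)‖) (𝓝[>] 0) (𝓝 ‖x - c‖) := by
        have := hcont.tendsto 0
        simp only [zero_smul, add_zero] at this
        exact this.mono_left nhdsWithin_le_nhds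
      filter_upwards [h2.eventually (gt_mem_nhds hcball)] with ε hε
      rw [mem_closedBall, dist_comm, dist_eq_norm]
      exact hε.le
    obtain ⟨ε, h1, h2⟩ := (key2.and key3).exists
    have h3 : m < G (c + ε • v) := by
      simp only [hG]
      rw [Finset.lt_inf'_iff]
      exact h1
    exact absurd (hmax h2) (not_le.mpr h3)

end Pool.Agent.Helper658
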