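import Pool.Agent.Helper658.Tri

set_option autoImplicit false

open MeasureTheory Metric Set Filter Topology
open scoped RealInnerProductSpace

namespace Pool.Agent.Helper658

/-- cross product relative to a base point -/
def crs (x y : EuclideanSpace ℝ (Fin 2)) : ℝ := x 0 * y 1 - x 1 * y 0

theorem crs_decomp (q r z : EuclideanSpace ℝ (Fin 2)) (hΔ : crs q r ≠ 0) :
    z = (crs z r / crs q r) • q + (crs q z / crs q r) • r := by
  have h0 : crs q r * z 0 = crs z r * q 0 + crs q z * r 0 := by unfold crs; ring
  have h1 : crs q r * z 1 = crs z r * q 1 + crs q z * r 1 := by unfold crs; ring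
  ext i
  fin_cases i
  · simp only [Fin.zero_eta, PiLp.add_apply, PiLp.smul_apply, smul_eq_mul]
    field_simp
    linarith
  · simp only [Fin.mk_one, PiLp.add_apply, PiLp.smul_apply, smul_eq_mul]
    field_simp
    linarith

theorem crs_nonneg_hull (A : Set (EuclideanSpace ℝ (Fin 2))) (p q : EuclideanSpace ℝ (Fin 2))
    (h : ∀ b ∈ A, 0 ≤ crs (q - p) (b - p)) : ∀ z ∈ convexHull ℝ A, 0 ≤ crs (q - p) (z - p) := by
  have hc : Convex ℝ {z : EuclideanSpace ℝ (Fin 2) | 0 ≤ crs (q - p) (z - p)} := by
    intro x hx y hy a b ha hb hab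
    have hx' : 0 ≤ crs (q - p) (x - p) := hx
    have hy' : 0 ≤ crs (q - p) (y - p) := hy
    show 0 ≤ crs (q - p) (a • x + b • y - p)
    have : crs (q - p) (a • x + b • y - p) = a * crs (q - p) (x - p) + b * crs (q - p) (y - p) := by
      have hb' : b = 1 - a := by linarith
      unfold crs
      simp only [PiLp.sub_apply, PiLp.add_apply, PiLp.smul_apply, smul_eq_mul]
      rw [hb']; ring
    rw [this]
    positivity
  exact fun z hz => convexHull_min (s := A) (fun b hb => h b hb) hc hz

theorem crs_nonneg_hull' (A : Set (EuclideanSpace ℝ (Fin 2))) (p r : EuclideanSpace ℝ (Fin 2))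
    (h : ∀ b ∈ A, 0 ≤ crs (b - p) (r - p)) : ∀ z ∈ convexHull ℝ A, 0 ≤ crs (z - p) (r - p) := by
  have hc : Convex ℝ {z : EuclideanSpace ℝ (Fin 2) | 0 ≤ crs (z - p) (r - p)} := by
    intro x hx y hy a b ha hb hab
    have hx' : 0 ≤ crs (x - p) (r - p) := hx
    have hy' : 0 ≤ crs (y - p) (r - p) := hy
    show 0 ≤ crs (a • x + b • y - p) (r - p)
    have : crs (a • x + b • y - p) (r - p) = a * crs (x - p) (r - p) + b * crs (y - p) (r - p) := by
      have hb' : b = 1 - a := by linarith
      unfold crs
      simp only [PiLp.sub_apply, PiLp.add_apply, PiLp.smul_apply, smul_eq_mul]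
      rw [hb']; ring
    rw [this]
    positivity
  exact fun z hz => convexHull_min (s := A) (fun b hb => h b hb) hc hz

/-- a line has measure zero -/
theorem vol_line (q p : EuclideanSpace ℝ (Fin 2)) (hq : q ≠ 0) :
    volume {x : EuclideanSpace ℝ (Fin 2) | crs q (x - p) = 0} = 0 := by
  let f : EuclideanSpace ℝ (Fin 2) →ₗ[ℝ] ℝ :=
    { toFun := fun x => crs q x
      map_add' := by intro x y; unfold crs; simp only [PiLp.add_apply]; ring
      map_smul' := by
        intro c x; unfold crs
        simp only [PiLp.smul_apply, smul_eq_mul, RingHom.id_apply]; ring }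
  have hker : (LinearMap.ker f) ≠ ⊤ := by
    intro h
    have h1 : (!₂[-(q 1), q 0] : EuclideanSpace ℝ (Fin 2)) ∈ LinearMap.ker f := by
      rw [h]; trivial
    rw [LinearMap.mem_ker] at h1
    have h2 : f !₂[-(q 1), q 0] = q 0 * q 0 - q 1 * -(q 1) := rfl
    rw [h2] at h1
    have h3 : (q 0) ^ 2 + (q 1) ^ 2 = 0 := by linarith
    have h4 := (add_eq_zero_iff_of_nonneg (sq_nonneg (q 0)) (sq_nonneg (q 1))).1 h3
    apply hq
    ext i; fin_cases i
    · exact pow_eq_zero_iff (two_ne_zero) |>.1 h4.1
    · exact pow_eq_zero_iff (two_ne_zero) |>.1 h4.2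
  have h0 : volume ((LinearMap.ker f : Submodule ℝ (EuclideanSpace ℝ (Fin 2))) :
      Set (EuclideanSpace ℝ (Fin 2))) = 0 := Measure.addHaar_submodule volume _ hker
  have hset : {x : EuclideanSpace ℝ (Fin 2) | crs q (x - p) = 0} =
      (fun x => -p + x) ⁻¹' ((LinearMap.ker f : Submodule ℝ (EuclideanSpace ℝ (Fin 2))) :
      Set (EuclideanSpace ℝ (Fin 2))) := by
    ext x
    rw [mem_preimage, SetLike.mem_coe, LinearMap.mem_ker]
    have h2 : f (-p + x) = crs q (x - p) := by
      rw [show x - p = -p + x by abel]; rfl
    rw [h2]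
    rfl
  rw [hset, measure_preimage_add]
  exact h0

/-- adding one point adds at most one triangle -/
theorem vol_insert_le (A : Finset (EuclideanSpace ℝ (Fin 2))) (hA : A.Nonempty)
    (p : EuclideanSpace ℝ (Fin 2)) :
    ∃ q ∈ A, ∃ r ∈ A, volume (convexHull ℝ (insert p (A : Set (EuclideanSpace ℝ (Fin 2))))) ≤
      volume (convexHull ℝ (A : Set (EuclideanSpace ℝ (Fin 2)))) +
        volume (convexHull ℝ {p, q, r}) := by
  set H := convexHull ℝ (A : Set (EuclideanSpace ℝ (Fin 2))) with hH
  have hHc : Convex ℝ H := convex_convexHull ℝ _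
  by_cases hpH : p ∈ H
  · obtain ⟨q, hq⟩ := hA
    refine ⟨q, hq, q, hq, ?_⟩
    have : convexHull ℝ (insert p (A : Set (EuclideanSpace ℝ (Fin 2)))) ⊆ H := by
      refine convexHull_min ?_ hHc
      rintro x (rfl | hx)
      · exact hpH
      · exact subset_convexHull ℝ _ hx
    exact (measure_mono this).trans le_self_add
  · -- separate p from the hull
    obtain ⟨f, u, hfp, hfu⟩ := geometric_hahn_banach_point_closed hHc
      (A.finite_toSet.isCompact_convexHull (𝕜 := ℝ)).isClosed hpH
    set n := (InnerProductSpace.toDual ℝ (EuclideanSpace ℝ (Fin 2))).symm f with hn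
    have hfn : ∀ y, f y = n 0 * y 0 + n 1 * y 1 := by
      intro y
      have : f y = ⟪n, y⟫ := by rw [hn, InnerProductSpace.toDual_symm_apply]
      rw [this, EuclideanSpace.inner_eq_star_dotProduct]
      simp [dotProduct, Fin.sum_univ_two]
      ring
    have hpos : ∀ z ∈ H, 0 < n 0 * (z - p) 0 + n 1 * (z - p) 1 := by
      intro z hz
      have h1 := hfu z hz
      have h2 : f (z - p) = f z - f p := map_sub f z p
      rw [← hfn, h2]; linarith
    have hposA : ∀ b ∈ A, 0 < n 0 * (b - p) 0 + n 1 * (b - p) 1 :=
      fun b hb => hpos b (subset_convexHull ℝ _ hb)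
    obtain ⟨q, hq, hqmin⟩ := A.exists_min_image
      (fun b => (-(n 1) * (b - p) 0 + n 0 * (b - p) 1) / (n 0 * (b - p) 0 + n 1 * (b - p) 1)) hA
    obtain ⟨r, hr, hrmax⟩ := A.exists_max_image
      (fun b => (-(n 1) * (b - p) 0 + n 0 * (b - p) 1) / (n 0 * (b - p) 0 + n 1 * (b - p) 1)) hA
    have hn2 : 0 < n 0 ^ 2 + n 1 ^ 2 := by
      rcases (add_nonneg (sq_nonneg (n 0)) (sq_nonneg (n 1))).eq_or_lt with h | h
      · exfalso
        have h4 := (add_eq_zero_iff_of_nonneg (sq_nonneg (n 0)) (sq_nonneg (n 1))).1 h.symm
        have h5 : n 0 = 0 := pow_eq_zero_iff (two_ne_zero) |>.1 h4.1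
        have h6 : n 1 = 0 := pow_eq_zero_iff (two_ne_zero) |>.1 h4.2
        have := hposA q hq
        rw [h5, h6] at this
        simp at this
      · exact h
    have hslope : ∀ a ∈ A, ∀ b ∈ A,
        (-(n 1) * (a - p) 0 + n 0 * (a - p) 1) / (n 0 * (a - p) 0 + n 1 * (a - p) 1) ≤
        (-(n 1) * (b - p) 0 + n 0 * (b - p) 1) / (n 0 * (b - p) 0 + n 1 * (b - p) 1) →
        0 ≤ crs (a - p) (b - p) := by
      intro a ha b hb hle
      rw [div_le_div_iff₀ (hposA a ha) (hposA b hb)] at hle
      have h1 : 0 ≤ (n 0 ^ 2 + n 1 ^ 2) * crs (a - p) (b - p) := by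
        unfold crs
        nlinarith
      exact nonneg_of_mul_nonneg_right h1 hn2
    have hqA : ∀ b ∈ A, 0 ≤ crs (q - p) (b - p) := fun b hb => hslope q hq b hb (hqmin b hb)
    have hrA : ∀ b ∈ A, 0 ≤ crs (b - p) (r - p) := fun b hb => hslope b hb r hr (hrmax b hb)
    have hqH := crs_nonneg_hull (A : Set (EuclideanSpace ℝ (Fin 2))) p q hqA
    have hrH := crs_nonneg_hull' (A : Set (EuclideanSpace ℝ (Fin 2))) p r hrA
    refine ⟨q, hq, r, hr, ?_⟩
    rw [convexHull_insert (by simpa using hA)]
    have hqp : q - p ≠ 0 := by
      intro h0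
      have := hposA q hq
      rw [h0] at this
      simp at this
    rcases (hqA r hr).eq_or_lt with h0 | hΔ
    · -- degenerate: everything on a line
      have hsub : convexJoin ℝ {p} H ⊆ {x | crs (q - p) (x - p) = 0} := by
        intro x hx
        rw [mem_convexJoin] at hx
        obtain ⟨p', hp', z, hz, hx⟩ := hx
        rw [mem_singleton_iff] at hp'
        subst hp'
        rw [segment_eq_image'] at hx
        obtain ⟨θ, hθ, rfl⟩ := hx
        have h1 := hqH z hz
        have h2 := hrH z hz
        -- crs (q-p) (r-p) = 0 and both positive multiples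
        have hz0 : crs (q - p') (z - p') = 0 := by
          have hfq := hposA q hq
          have hfr := hposA r hr
          -- f(r-p) * (q-p) = f(q-p) * (r-p)
          have hid : (n 0 * (r - p') 0 + n 1 * (r - p') 1) * crs (q - p') (z - p') +
              (n 0 * (q - p') 0 + n 1 * (q - p') 1) * crs (z - p') (r - p') =
              (n 0 * (z - p') 0 + n 1 * (z - p') 1) * crs (q - p') (r - p') := by
            unfold crs; ring
          rw [← h0, mul_zero] at hid
          have h3 : 0 ≤ (n 0 * (r - p') 0 + n 1 * (r - p') 1) * crs (q - p') (z - p') :=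
            mul_nonneg hfr.le h1
          have h4 : 0 ≤ (n 0 * (q - p') 0 + n 1 * (q - p') 1) * crs (z - p') (r - p') :=
            mul_nonneg hfq.le h2
          have h5 : (n 0 * (r - p') 0 + n 1 * (r - p') 1) * crs (q - p') (z - p') = 0 := by
            linarith
          rcases mul_eq_zero.1 h5 with h6 | h6
          · exact absurd h6 hfr.ne'
          · exact h6
        show crs (q - p') (p' + θ • (z - p') - p') = 0
        have : p' + θ • (z - p') - p' = θ • (z - p') := by abel
        rw [this]
        have h7 : crs (q - p') (θ • (z - p')) = θ * crs (q - p') (z - p') := by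
          unfold crs
          simp only [PiLp.smul_apply, smul_eq_mul]; ring
        rw [h7, hz0, mul_zero]
      have : volume (convexJoin ℝ {p} H) = 0 :=
        measure_mono_null hsub (vol_line (q - p) p hqp)
      rw [this]
      exact zero_le
    · have hsub : convexJoin ℝ {p} H ⊆ H ∪ convexHull ℝ {p, q, r} := by
        intro x hx
        rw [mem_convexJoin] at hx
        obtain ⟨p', hp', z, hz, hx⟩ := hx
        rw [mem_singleton_iff] at hp'
        subst hp'
        rw [segment_eq_image'] at hx
        obtain ⟨θ, ⟨hθ0, hθ1⟩, rfl⟩ := hx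
        have h1 := hqH z hz
        have h2 := hrH z hz
        have hdec := crs_decomp (q - p') (r - p') (z - p') hΔ.ne'
        set α := crs (z - p') (r - p') / crs (q - p') (r - p') with hα
        set β := crs (q - p') (z - p') / crs (q - p') (r - p') with hβ
        have hα0 : 0 ≤ α := div_nonneg h2 hΔ.le
        have hβ0 : 0 ≤ β := div_nonneg h1 hΔ.le
        have hqH' : q ∈ H := subset_convexHull ℝ _ hq
        have hrH' : r ∈ H := subset_convexHull ℝ _ hr
        by_cases hcase : θ * (α + β) ≤ 1
        · right
          have hx : p' + θ • (z - p') =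
              (1 - θ * α - θ * β) • p' + (θ * α) • q + (θ * β) • r := by
            rw [hdec]
            module
          show p' + θ • (z - p') ∈ convexHull ℝ {p', q, r}
          rw [hx]
          have hmem : ∀ y ∈ ({p', q, r} : Set (EuclideanSpace ℝ (Fin 2))),
            y ∈ convexHull ℝ {p', q, r} := fun y hy => subset_convexHull ℝ _ hy
          have hT : Convex ℝ (convexHull ℝ {p', q, r}) := convex_convexHull ℝ _
          have := hT.sum_mem (t := (Finset.univ : Finset (Fin 3)))
            (w := ![1 - θ * α - θ * β, θ * α, θ * β]) (z := ![p', q, r]) ?_ ?_ ?_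
          · simpa [Fin.sum_univ_three] using this
          · intro i _
            fin_cases i
            · show 0 ≤ 1 - θ * α - θ * β
              linarith
            · exact mul_nonneg hθ0 hα0
            · exact mul_nonneg hθ0 hβ0
          · rw [Fin.sum_univ_three]
            show (1 - θ * α - θ * β) + θ * α + θ * β = 1
            ring
          · intro i _
            fin_cases i
            · exact hmem _ (by simp)
            · exact hmem _ (by simp)
            · exact hmem _ (by simp)
        · left
          have hcase' : 1 < θ * (α + β) := not_le.1 hcase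
          have hS : 1 < α + β := by
            have : θ * (α + β) ≤ 1 * (α + β) :=
              mul_le_mul_of_nonneg_right hθ1 (by linarith)
            linarith
          have hS0 : 0 < α + β := by linarith
          set y : EuclideanSpace ℝ (Fin 2) := (α / (α + β)) • q + (β / (α + β)) • r with hy
          have hyH : y ∈ H := by
            refine hHc hqH' hrH' (div_nonneg hα0 hS0.le) (div_nonneg hβ0 hS0.le) ?_
            rw [← add_div, div_self hS0.ne']
          set μ := (θ * (α + β) - 1) / ((α + β) - 1) with hμ
          have hμ0 : 0 ≤ μ := div_nonneg (by linarith) (by linarith)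
          have hμ1 : μ ≤ 1 := by
            rw [hμ, div_le_one (by linarith)]
            have : θ * (α + β) ≤ 1 * (α + β) :=
              mul_le_mul_of_nonneg_right hθ1 (by linarith)
            linarith
          have hx : p' + θ • (z - p') = (1 - μ) • y + μ • z := by
            have hz' : z = p' + (α • (q - p') + β • (r - p')) := by
              rw [← hdec]; abel
            have hy' : y = p' + (1 / (α + β)) • (α • (q - p') + β • (r - p')) := by
              rw [hy]
              have e1 : (α / (α + β)) + (β / (α + β)) = 1 := by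
                rw [← add_div, div_self hS0.ne']
              have : p' + (1 / (α + β)) • (α • (q - p') + β • (r - p')) =
                (1 - (α / (α + β) + β / (α + β))) • p' + (α / (α + β)) • q + (β / (α + β)) • r := by
                module
              rw [this, e1]
              module
            have hθμ : θ = (1 - μ) * (1 / (α + β)) + μ := by
              rw [hμ]
              have : (α + β) - 1 ≠ 0 := by linarith
              field_simp
              ring
            rw [hy', hz']
            have e2 : p' + (α • (q - p') + β • (r - p')) - p' = α • (q - p') + β • (r - p') := by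
              abel
            rw [e2]
            conv_lhs => rw [hθμ]
            module
          show p' + θ • (z - p') ∈ H
          rw [hx]
          exact hHc hyH hz (by linarith) hμ0 (by linarith)
      exact (measure_mono hsub).trans (measure_union_le _ _)

/-- area of the convex hull of `k` points on a circle of radius at most `R` -/
theorem vol_hull_circle (c : EuclideanSpace ℝ (Fin 2)) (ρ R : ℝ) (hρR : ρ ≤ R)
    (A : Finset (EuclideanSpace ℝ (Fin 2))) :
    (∀ p ∈ A, dist p c = ρ) → 2 ≤ A.card →
    volume (convexHull ℝ (A : Set (EuclideanSpace ℝ (Fin 2)))) ≤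
      ((A.card - 2 : ℕ) : ENNReal) * ENNReal.ofReal (3 * Real.sqrt 3 / 4 * R ^ 2) := by
  classical
  induction A using Finset.induction_on with
  | empty => intro _ h; simp at h
  | insert p s hps ih =>
    intro hA hcard
    rw [Finset.card_insert_of_notMem hps] at hcard ⊢
    rw [Finset.coe_insert]
    have hsc : ∀ q ∈ s, dist q c = ρ := fun q hq => hA q (Finset.mem_insert_of_mem hq)
    have hsne : s.Nonempty := by
      rw [← Finset.card_pos]; omega
    obtain ⟨q, hq, r, hr, hvol⟩ := vol_insert_le s hsne p
    by_cases h2 : 2 ≤ s.card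
    · refine hvol.trans ?_
      have h3 := ih hsc h2
      have h4 := vol_tri_circle c p q r ρ R (hA p (Finset.mem_insert_self _ _)) (hsc q hq)
        (hsc r hr) hρR
      calc _ ≤ ((s.card - 2 : ℕ) : ENNReal) * ENNReal.ofReal (3 * Real.sqrt 3 / 4 * R ^ 2) +
            ENNReal.ofReal (3 * Real.sqrt 3 / 4 * R ^ 2) := add_le_add h3 h4
        _ = ((s.card + 1 - 2 : ℕ) : ENNReal) * ENNReal.ofReal (3 * Real.sqrt 3 / 4 * R ^ 2) := by
          have : s.card + 1 - 2 = (s.card - 2) + 1 := by omega
          rw [this]; push_cast; ring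
    · -- s is a singleton
      have h3 : s.card = 1 := by omega
      obtain ⟨a, ha⟩ := Finset.card_eq_one.1 h3
      have h5 : volume (convexHull ℝ (insert p (s : Set (EuclideanSpace ℝ (Fin 2))))) = 0 := by
        have h6 := vol_tri p a a
        have h7 : |(a 0 - p 0) * (a 1 - p 1) - (a 1 - p 1) * (a 0 - p 0)| / 2 = 0 := by
          rw [show (a 0 - p 0) * (a 1 - p 1) - (a 1 - p 1) * (a 0 - p 0) = 0 by ring]
          simp
        rw [h7, ENNReal.ofReal_zero] at h6
        rw [ha]
        have h8 : insert p (({a} : Finset (EuclideanSpace ℝ (Fin 2))) :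
            Set (EuclideanSpace ℝ (Fin 2))) = {p, a, a} := by simp
        rw [h8]
        exact le_antisymm h6 zero_le
      rw [h5]
      exact zero_le

end Pool.Agent.Helper658
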