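import Pool.Agent.Helper658.Del
import Pool.Agent.Helper658.Cnt
import Pool.Agent.Helper658.Hull

set_option autoImplicit false

open MeasureTheory Metric Set Filter Topology

namespace Pool.Agent.Helper658

theorem exists_generic (F : Finset (EuclideanSpace ℝ (Fin 2))) :
    ∃ t : ℝ, ∀ p ∈ F, ∀ q ∈ F, p 0 + t * p 1 = q 0 + t * q 1 → p = q := by
  have hfin : (⋃ p ∈ F, ⋃ q ∈ F, {t : ℝ | p ≠ q ∧ p 0 + t * p 1 = q 0 + t * q 1}).Finite := by
    apply Set.Finite.biUnion F.finite_toSet
    intro p _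
    apply Set.Finite.biUnion F.finite_toSet
    intro q _
    apply Set.Subsingleton.finite
    rintro t ⟨hne, ht⟩ t' ⟨_, ht'⟩
    by_contra htt
    have h1 : (t - t') * (p 1 - q 1) = 0 := by linarith
    rcases mul_eq_zero.1 h1 with h | h
    · exact htt (by linarith)
    · have h2 : p 1 = q 1 := by linarith
      have h3 : p 0 = q 0 := by rw [h2] at ht; linarith
      apply hne
      ext i; fin_cases i
      · exact h3
      · exact h2
  obtain ⟨t, ht⟩ := hfin.exists_notMem
  refine ⟨t, fun p hp q hq h => ?_⟩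
  by_contra hne
  apply ht
  simp only [mem_iUnion]
  exact ⟨p, hp, q, hq, hne, h⟩

theorem vol_small (A : Finset (EuclideanSpace ℝ (Fin 2))) (hA : A.card ≤ 2) :
    volume (convexHull ℝ (A : Set (EuclideanSpace ℝ (Fin 2)))) = 0 := by
  have key : ∀ a b : EuclideanSpace ℝ (Fin 2), volume (convexHull ℝ {a, b, b}) = 0 := by
    intro p a
    have h6 := vol_tri p a a
    have h7 : |(a 0 - p 0) * (a 1 - p 1) - (a 1 - p 1) * (a 0 - p 0)| / 2 = 0 := by
      rw [show (a 0 - p 0) * (a 1 - p 1) - (a 1 - p 1) * (a 0 - p 0) = 0 by ring]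
      simp
    rw [h7, ENNReal.ofReal_zero] at h6
    exact le_antisymm h6 zero_le
  have h : A.card = 0 ∨ A.card = 1 ∨ A.card = 2 := by omega
  rcases h with h | h | h
  · rw [Finset.card_eq_zero] at h
    rw [h]; simp
  · obtain ⟨a, ha⟩ := Finset.card_eq_one.1 h
    have := key a a
    rw [ha]; simp
  · obtain ⟨a, b, hab, ha⟩ := Finset.card_eq_two.1 h
    have := key a b
    rw [ha]
    have h2 : (({a, b} : Finset (EuclideanSpace ℝ (Fin 2))) : Set (EuclideanSpace ℝ (Fin 2))) =
        {a, b, b} := by simp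
    rw [h2]; exact this

/-- Kershner's bound, finite version. -/
theorem kershner_finite (F : Finset (EuclideanSpace ℝ (Fin 2))) (r R : ℝ) (hR : 0 < R)
    (hr : 0 ≤ r)
    (hcov : ∀ c ∈ closedBall (0 : EuclideanSpace ℝ (Fin 2)) (r + R), ∃ p ∈ F, dist p c ≤ R) :
    volume (closedBall (0 : EuclideanSpace ℝ (Fin 2)) r) ≤
      ((2 * F.card : ℕ) : ENNReal) * ENNReal.ofReal (3 * Real.sqrt 3 / 4 * R ^ 2) := by
  classical
  obtain ⟨t, ht⟩ := exists_generic F
  have hFne : F.Nonempty := by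
    obtain ⟨p, hp, _⟩ := hcov 0 (mem_closedBall_self (by linarith))
    exact ⟨p, hp⟩
  set Q := F.powerset.filter (fun A => IsDel F R A ∧ 3 ≤ A.card) with hQ
  set S := F.powerset.filter (fun A => A.card ≤ 2) with hS
  have hsub : closedBall (0 : EuclideanSpace ℝ (Fin 2)) r ⊆
      (⋃ A ∈ Q, convexHull ℝ (A : Set (EuclideanSpace ℝ (Fin 2)))) ∪
      (⋃ A ∈ S, convexHull ℝ (A : Set (EuclideanSpace ℝ (Fin 2)))) := by
    intro x hx
    by_cases hxF : x ∈ F
    · right
      simp only [mem_iUnion]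
      refine ⟨{x}, ?_, ?_⟩
      · rw [hS, Finset.mem_filter, Finset.mem_powerset]
        exact ⟨by simpa using hxF, by simp⟩
      · exact subset_convexHull ℝ _ (by simp)
    · obtain ⟨c, ρ, hρR, hge, hmem⟩ := exists_delaunay F hFne x hxF R hR (by
        intro c hc
        apply hcov
        rw [mem_closedBall] at hc hx ⊢
        have := dist_triangle c x 0
        linarith)
      set A := F.filter (fun p => dist p c = ρ) with hA
      have hAset : {p : EuclideanSpace ℝ (Fin 2) | p ∈ F ∧ dist p c = ρ} =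
          (A : Set (EuclideanSpace ℝ (Fin 2))) := by
        ext p; simp [hA]
      rw [hAset] at hmem
      have hAF : A ⊆ F := Finset.filter_subset _ _
      by_cases h3 : 3 ≤ A.card
      · left
        simp only [mem_iUnion]
        refine ⟨A, ?_, hmem⟩
        rw [hQ, Finset.mem_filter, Finset.mem_powerset]
        exact ⟨hAF, ⟨c, ρ, hρR, hge, by intro p; simp [hA]⟩, h3⟩
      · right
        simp only [mem_iUnion]
        refine ⟨A, ?_, hmem⟩
        rw [hS, Finset.mem_filter, Finset.mem_powerset]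
        exact ⟨hAF, by omega⟩
  set a := ENNReal.ofReal (3 * Real.sqrt 3 / 4 * R ^ 2) with ha
  have hvolS : volume (⋃ A ∈ S, convexHull ℝ (A : Set (EuclideanSpace ℝ (Fin 2)))) = 0 := by
    refine le_antisymm ((measure_biUnion_finset_le S _).trans (le_of_eq ?_)) zero_le
    apply Finset.sum_eq_zero
    intro A hA'
    rw [hS, Finset.mem_filter] at hA'
    exact vol_small A hA'.2
  have hvolQ : volume (⋃ A ∈ Q, convexHull ℝ (A : Set (EuclideanSpace ℝ (Fin 2)))) ≤
      ∑ A ∈ Q, ((A.card - 2 : ℕ) : ENNReal) * a := by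
    refine (measure_biUnion_finset_le Q _).trans ?_
    apply Finset.sum_le_sum
    intro A hA
    rw [hQ, Finset.mem_filter] at hA
    obtain ⟨_, ⟨c, ρ, hρR, hge, hmem⟩, h3⟩ := hA
    exact vol_hull_circle c ρ R hρR A (fun p hp => ((hmem p).1 hp).2) (by omega)
  have hcount := count_bound F R t ht Q (by
    intro A hA
    rw [hQ, Finset.mem_filter] at hA
    exact hA.2.1)
  calc volume (closedBall (0 : EuclideanSpace ℝ (Fin 2)) r)
      ≤ volume ((⋃ A ∈ Q, convexHull ℝ (A : Set (EuclideanSpace ℝ (Fin 2)))) ∪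
        (⋃ A ∈ S, convexHull ℝ (A : Set (EuclideanSpace ℝ (Fin 2))))) := measure_mono hsub
    _ ≤ volume (⋃ A ∈ Q, convexHull ℝ (A : Set (EuclideanSpace ℝ (Fin 2)))) +
        volume (⋃ A ∈ S, convexHull ℝ (A : Set (EuclideanSpace ℝ (Fin 2)))) :=
        measure_union_le _ _
    _ ≤ ∑ A ∈ Q, ((A.card - 2 : ℕ) : ENNReal) * a := by
        rw [hvolS, add_zero]; exact hvolQ
    _ = ((∑ A ∈ Q, (A.card - 2) : ℕ) : ENNReal) * a := by
        rw [← Finset.sum_mul]; push_cast; rfl
    _ ≤ ((2 * F.card : ℕ) : ENNReal) * a := by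
        gcongr

/-- Kershner's bound: a set of centres whose discs of radius `R` cover the plane. -/
theorem kershner (P : Set (EuclideanSpace ℝ (Fin 2))) (r R : ℝ) (hR : 0 < R) (hr : 0 ≤ r)
    (hcov : ∀ x : EuclideanSpace ℝ (Fin 2), ∃ p ∈ P, dist p x ≤ R) :
    volume (closedBall (0 : EuclideanSpace ℝ (Fin 2)) r) ≤
      2 * ENNReal.ofReal (3 * Real.sqrt 3 / 4 * R ^ 2) *
        (((P ∩ closedBall 0 (r + 2 * R)).encard : ℕ∞) : ENNReal) := by
  classical
  by_cases hfin : (P ∩ closedBall (0 : EuclideanSpace ℝ (Fin 2)) (r + 2 * R)).Finite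
  · set F := hfin.toFinset with hF
    have h := kershner_finite F r R hR hr (by
      intro c hc
      obtain ⟨p, hp, hpc⟩ := hcov c
      refine ⟨p, ?_, hpc⟩
      rw [hF, Set.Finite.mem_toFinset]
      refine ⟨hp, ?_⟩
      rw [mem_closedBall] at hc ⊢
      have := dist_triangle p c 0
      linarith)
    refine h.trans (le_of_eq ?_)
    rw [hfin.encard_eq_coe_toFinset_card, ← hF]
    push_cast
    ring
  · have : (P ∩ closedBall (0 : EuclideanSpace ℝ (Fin 2)) (r + 2 * R)).encard = ⊤ :=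
      Set.encard_eq_top_iff.2 hfin
    rw [this]
    have hpos : 0 < ENNReal.ofReal (3 * Real.sqrt 3 / 4 * R ^ 2) := by
      rw [ENNReal.ofReal_pos]; positivity
    have h2 : 2 * ENNReal.ofReal (3 * Real.sqrt 3 / 4 * R ^ 2) ≠ 0 := by
      simp only [ne_eq, mul_eq_zero, not_or]
      exact ⟨by norm_num, hpos.ne'⟩
    rw [ENat.toENNReal_top, ENNReal.mul_top h2]
    exact le_top

end Pool.Agent.Helper658
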