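import Pool.Agent.Helper658.Cover

set_option autoImplicit false

open MeasureTheory Metric Set Filter Topology

namespace Pool.Agent.Helper658.Tiling

open Pool.Agent.Helper658.Cover

def TL : List (List (ℤ × ℤ)) :=
  [[(498, 723), (1041, 501), (1448, 1031)],
   [(498, 723), (1448, 1031), (1131, 1495)],
   [(498, 723), (1131, 1495), (498, 1339)],
   [(2429, 250), (2746, -214), (3380, -58)],
   [(2429, 250), (3380, -58), (3379, 559)],
   [(2429, 250), (3379, 559), (2836, 781)],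
   [(1796, 1968), (2082, 1804), (2625, 2026)],
   [(1796, 1968), (2625, 2026), (2746, 2276)],
   [(1796, 1968), (2746, 2276), (2429, 2740)],
   [(1796, 1968), (2429, 2740), (2022, 2801)],
   [(1796, 1968), (2022, 2801), (1796, 2584)],
   [(1253, 1745), (1796, 1968), (1796, 2584)],
   [(1253, 1745), (1796, 2584), (1162, 2740)],
   [(1253, 1745), (1162, 2740), (845, 2276)],
   [(272, 1556), (498, 1339), (1131, 1495)],
   [(272, 1556), (1131, 1495), (1253, 1745)],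
   [(272, 1556), (1253, 1745), (845, 2276)],
   [(272, 1556), (845, 2276), (438, 2215)],
   [(2714, 1031), (2836, 781), (3379, 559)],
   [(2714, 1031), (3379, 559), (3665, 723)],
   [(2714, 1031), (3665, 723), (3665, 1339)],
   [(2714, 1031), (3665, 1339), (3439, 1556)],
   [(2714, 1031), (3439, 1556), (3031, 1495)],
   [(2022, 311), (2429, 250), (2836, 781)],
   [(2022, 311), (2836, 781), (2714, 1031)],
   [(2022, 311), (2714, 1031), (2081, 1187)],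
   [(2022, 311), (2081, 1187), (1855, 970)],
   [(1041, 501), (1162, 250), (1796, 94)],
   [(1041, 501), (1796, 94), (2022, 311)],
   [(1041, 501), (2022, 311), (1855, 970)],
   [(1041, 501), (1855, 970), (1448, 1031)],
   [(213, 2432), (438, 2215), (845, 2276)],
   [(213, 2432), (845, 2276), (1162, 2740)],
   [(213, 2432), (1162, 2740), (1041, 2991)],
   [(213, 2432), (1041, 2991), (498, 3213)],
   [(213, 2432), (498, 3213), (212, 3049)],
   [(3031, 1495), (3439, 1556), (3605, 2215)],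
   [(3031, 1495), (3605, 2215), (3380, 2432)],
   [(3031, 1495), (3380, 2432), (2746, 2276)],
   [(3031, 1495), (2746, 2276), (2625, 2026)],
   [(2081, 1187), (2714, 1031), (3031, 1495)],
   [(2081, 1187), (3031, 1495), (2625, 2026)],
   [(2081, 1187), (2625, 2026), (2082, 1804)],
   [(1448, 1031), (1855, 970), (2081, 1187)],
   [(1448, 1031), (2081, 1187), (2082, 1804)],
   [(1448, 1031), (2082, 1804), (1796, 1968)],
   [(1448, 1031), (1796, 1968), (1253, 1745)],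
   [(1448, 1031), (1253, 1745), (1131, 1495)]]

def NL : List (List (ℕ × ℕ × ℤ × ℤ)) :=
  [[(34, 1, 0, -1), (30, 2, 0, 0), (1, 0, 0, 0)],
   [(0, 2, 0, 0), (47, 2, 0, 0), (2, 0, 0, 0)],
   [(1, 2, 0, 0), (14, 1, 0, 0), (20, 1, -1, 0)],
   [(8, 1, 0, -1), (38, 1, 0, -1), (4, 0, 0, 0)],
   [(3, 2, 0, 0), (35, 2, 1, -1), (5, 0, 0, 0)],
   [(4, 2, 0, 0), (18, 1, 0, 0), (23, 1, 0, 0)],
   [(45, 1, 0, 0), (42, 1, 0, 0), (7, 0, 0, 0)],
   [(6, 2, 0, 0), (39, 1, 0, 0), (8, 0, 0, 0)],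
   [(7, 2, 0, 0), (3, 0, 0, 1), (9, 0, 0, 0)],
   [(8, 2, 0, 0), (23, 0, 0, 1), (10, 0, 0, 0)],
   [(9, 2, 0, 0), (28, 1, 0, 1), (11, 1, 0, 0)],
   [(46, 1, 0, 0), (10, 2, 0, 0), (12, 0, 0, 0)],
   [(11, 2, 0, 0), (27, 1, 0, 1), (13, 0, 0, 0)],
   [(12, 2, 0, 0), (32, 1, 0, 0), (16, 1, 0, 0)],
   [(21, 1, -1, 0), (2, 1, 0, 0), (15, 0, 0, 0)],
   [(14, 2, 0, 0), (47, 1, 0, 0), (16, 0, 0, 0)],
   [(15, 2, 0, 0), (13, 2, 0, 0), (17, 0, 0, 0)],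
   [(16, 2, 0, 0), (31, 1, 0, 0), (36, 1, -1, 0)],
   [(24, 1, 0, 0), (5, 1, 0, 0), (19, 0, 0, 0)],
   [(18, 2, 0, 0), (35, 1, 1, -1), (20, 0, 0, 0)],
   [(19, 2, 0, 0), (2, 2, 1, 0), (21, 0, 0, 0)],
   [(20, 2, 0, 0), (14, 0, 1, 0), (22, 0, 0, 0)],
   [(21, 2, 0, 0), (36, 0, 0, 0), (40, 1, 0, 0)],
   [(9, 1, 0, -1), (5, 2, 0, 0), (24, 0, 0, 0)],
   [(23, 2, 0, 0), (18, 0, 0, 0), (25, 0, 0, 0)],
   [(24, 2, 0, 0), (40, 0, 0, 0), (26, 0, 0, 0)],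
   [(25, 2, 0, 0), (43, 1, 0, 0), (29, 1, 0, 0)],
   [(33, 1, 0, -1), (12, 1, 0, -1), (28, 0, 0, 0)],
   [(27, 2, 0, 0), (10, 1, 0, -1), (29, 0, 0, 0)],
   [(28, 2, 0, 0), (26, 2, 0, 0), (30, 0, 0, 0)],
   [(29, 2, 0, 0), (43, 0, 0, 0), (0, 1, 0, 0)],
   [(37, 1, -1, 0), (17, 1, 0, 0), (32, 0, 0, 0)],
   [(31, 2, 0, 0), (13, 1, 0, 0), (33, 0, 0, 0)],
   [(32, 2, 0, 0), (27, 0, 0, 1), (34, 0, 0, 0)],
   [(33, 2, 0, 0), (0, 0, 0, 1), (35, 0, 0, 0)],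
   [(34, 2, 0, 0), (19, 1, -1, 1), (4, 1, -1, 1)],
   [(22, 1, 0, 0), (17, 2, 1, 0), (37, 0, 0, 0)],
   [(36, 2, 0, 0), (31, 0, 1, 0), (38, 0, 0, 0)],
   [(37, 2, 0, 0), (3, 1, 0, 1), (39, 0, 0, 0)],
   [(38, 2, 0, 0), (7, 1, 0, 0), (41, 1, 0, 0)],
   [(25, 1, 0, 0), (22, 2, 0, 0), (41, 0, 0, 0)],
   [(40, 2, 0, 0), (39, 2, 0, 0), (42, 0, 0, 0)],
   [(41, 2, 0, 0), (6, 1, 0, 0), (44, 1, 0, 0)],
   [(30, 1, 0, 0), (26, 1, 0, 0), (44, 0, 0, 0)],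
   [(43, 2, 0, 0), (42, 2, 0, 0), (45, 0, 0, 0)],
   [(44, 2, 0, 0), (6, 0, 0, 0), (46, 0, 0, 0)],
   [(45, 2, 0, 0), (11, 0, 0, 0), (47, 0, 0, 0)],
   [(46, 2, 0, 0), (15, 1, 0, 0), (1, 1, 0, 0)]]

def OL : List ℕ :=
  [0, 0, 0, 1, 1, 1, 2, 2, 2, 2, 2, 3, 3, 3, 4, 4, 4, 4, 5, 5, 5, 5, 5, 6, 6, 6, 6, 7, 7, 7, 7, 8, 8, 8, 8, 8, 9, 9, 9, 9, 10, 10, 10, 11, 11, 11, 11, 11]

def CL : List (List (ℤ × ℤ)) :=
  [[(498, 723), (1041, 501), (1448, 1031), (1131, 1495), (498, 1339)],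
   [(2429, 250), (2746, -214), (3380, -58), (3379, 559), (2836, 781)],
   [(1796, 1968), (2082, 1804), (2625, 2026), (2746, 2276), (2429, 2740), (2022, 2801), (1796, 2584)],
   [(1253, 1745), (1796, 1968), (1796, 2584), (1162, 2740), (845, 2276)],
   [(272, 1556), (498, 1339), (1131, 1495), (1253, 1745), (845, 2276), (438, 2215)],
   [(2714, 1031), (2836, 781), (3379, 559), (3665, 723), (3665, 1339), (3439, 1556), (3031, 1495)],
   [(2022, 311), (2429, 250), (2836, 781), (2714, 1031), (2081, 1187), (1855, 970)],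
   [(1041, 501), (1162, 250), (1796, 94), (2022, 311), (1855, 970), (1448, 1031)],
   [(213, 2432), (438, 2215), (845, 2276), (1162, 2740), (1041, 2991), (498, 3213), (212, 3049)],
   [(3031, 1495), (3439, 1556), (3605, 2215), (3380, 2432), (2746, 2276), (2625, 2026)],
   [(2081, 1187), (2714, 1031), (3031, 1495), (2625, 2026), (2082, 1804)],
   [(1448, 1031), (1855, 970), (2081, 1187), (2082, 1804), (1796, 1968), (1253, 1745), (1131, 1495)]]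

/-- period in the first coordinate (units of 1/1000) -/
def Wz : ℤ := 3167
/-- period in the second coordinate (units of 1/1000) -/
def Hz : ℤ := 2490

/-- integer coordinates of the vertices of the triangles -/
def tv (t : Fin 48) (e : Fin 3) : ℤ × ℤ := (TL.getD t.val []).getD e.val (0, 0)

def nbT (t : Fin 48) (e : Fin 3) : Fin 48 := Fin.ofNat 48 (((NL.getD t.val []).getD e.val (0, 0, 0, 0)).1)
def nbE (t : Fin 48) (e : Fin 3) : Fin 3 := Fin.ofNat 3 (((NL.getD t.val []).getD e.val (0, 0, 0, 0)).2.1)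
def nbM (t : Fin 48) (e : Fin 3) : ℤ := (((NL.getD t.val []).getD e.val (0, 0, 0, 0)).2.2.1)
def nbN (t : Fin 48) (e : Fin 3) : ℤ := (((NL.getD t.val []).getD e.val (0, 0, 0, 0)).2.2.2)

def ow (t : Fin 48) : Fin 12 := Fin.ofNat 12 (OL.getD t.val 0)

/-- integer vertices of the twelve cells -/
def cv (i : Fin 12) : List (ℤ × ℤ) := CL.getD i.val []

theorem nb_check : ∀ t : Fin 48, ∀ e : Fin 3,
    (tv (nbT t e) (nbE t e)).1 + nbM t e * Wz = (tv t (e + 1)).1 ∧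
    (tv (nbT t e) (nbE t e)).2 + nbN t e * Hz = (tv t (e + 1)).2 ∧
    (tv (nbT t e) (nbE t e + 1)).1 + nbM t e * Wz = (tv t e).1 ∧
    (tv (nbT t e) (nbE t e + 1)).2 + nbN t e * Hz = (tv t e).2 := by
  decide +kernel

theorem pos_check : ∀ t : Fin 48,
    0 < ((tv t 1).1 - (tv t 0).1) * ((tv t 2).2 - (tv t 0).2) -
      ((tv t 1).2 - (tv t 0).2) * ((tv t 2).1 - (tv t 0).1) := by
  decide +kernel

theorem bound_check : ∀ t : Fin 48, ∀ e : Fin 3,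
    -4000 ≤ (tv t e).1 ∧ (tv t e).1 ≤ 4000 ∧ -4000 ≤ (tv t e).2 ∧ (tv t e).2 ≤ 4000 := by
  decide +kernel

theorem owner_check : ∀ t : Fin 48, ∀ e : Fin 3, tv t e ∈ cv (ow t) := by
  decide +kernel

theorem owner_surj : ∀ i : Fin 12, ∃ t : Fin 48, ow t = i := by
  decide +kernel

theorem diam_check : ∀ i : Fin 12, ∀ u ∈ cv i, ∀ v ∈ cv i,
    (u.1 - v.1) ^ 2 + (u.2 - v.2) ^ 2 ≤ 1000000 := by
  decide +kernel

theorem head_check : ∀ i : Fin 12, (cv i).headD (0, 0) ∈ cv i := by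
  decide +kernel

/-- the point with integer coordinates `v` shifted by the period vector `(m, n)` -/
noncomputable def pt (v : ℤ × ℤ) (m n : ℤ) : EuclideanSpace ℝ (Fin 2) :=
  !₂[((v.1 + m * Wz : ℤ) : ℝ) / 1000, ((v.2 + n * Hz : ℤ) : ℝ) / 1000]

theorem pt_zero (v : ℤ × ℤ) (m n : ℤ) : pt v m n 0 = ((v.1 + m * Wz : ℤ) : ℝ) / 1000 := by
  simp [pt]

theorem pt_one (v : ℤ × ℤ) (m n : ℤ) : pt v m n 1 = ((v.2 + n * Hz : ℤ) : ℝ) / 1000 := by
  simp [pt]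

theorem pt_shift (u v : ℤ × ℤ) (m n a b : ℤ) (h1 : u.1 + a * Wz = v.1) (h2 : u.2 + b * Hz = v.2) :
    pt u (m + a) (n + b) = pt v m n := by
  unfold pt
  have e1 : u.1 + (m + a) * Wz = v.1 + m * Wz := by rw [← h1]; ring
  have e2 : u.2 + (n + b) * Hz = v.2 + n * Hz := by rw [← h2]; ring
  rw [e1, e2]

theorem D_pt (u v w : ℤ × ℤ) (m n : ℤ) :
    D (pt u m n) (pt v m n) (pt w m n) =
      (((v.1 - u.1) * (w.2 - u.2) - (v.2 - u.2) * (w.1 - u.1) : ℤ) : ℝ) / 1000000 := by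
  unfold D
  rw [pt_zero, pt_zero, pt_zero, pt_one, pt_one, pt_one]
  push_cast
  ring

/-- vertices of the triangle with index `(t, m, n)` -/
noncomputable def vx (e : Fin 3) (i : Fin 48 × ℤ × ℤ) : EuclideanSpace ℝ (Fin 2) :=
  pt (tv i.1 e) i.2.1 i.2.2

theorem vx_pos (i : Fin 48 × ℤ × ℤ) : 0 < D (vx 0 i) (vx 1 i) (vx 2 i) := by
  unfold vx
  rw [D_pt]
  have := pos_check i.1
  have h : (0 : ℝ) < (((tv i.1 1).1 - (tv i.1 0).1) * ((tv i.1 2).2 - (tv i.1 0).2) -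
      ((tv i.1 1).2 - (tv i.1 0).2) * ((tv i.1 2).1 - (tv i.1 0).1) : ℤ) := by
    exact_mod_cast this
  positivity

theorem triSet_cyc (f : Fin 3) (i : Fin 48 × ℤ × ℤ) :
    triSet (vx f i) (vx (f + 1) i) (vx (f + 2) i) = triSet (vx 0 i) (vx 1 i) (vx 2 i) ∧
    0 < D (vx f i) (vx (f + 1) i) (vx (f + 2) i) := by
  have hp := vx_pos i
  fin_cases f
  · exact ⟨rfl, hp⟩
  · refine ⟨?_, ?_⟩
    · show triSet (vx 1 i) (vx 2 i) (vx 0 i) = _
      rw [← triSet_rot]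
    · show 0 < D (vx 1 i) (vx 2 i) (vx 0 i)
      rw [D_rot]; exact hp
  · refine ⟨?_, ?_⟩
    · show triSet (vx 2 i) (vx 0 i) (vx 1 i) = _
      rw [← triSet_rot, ← triSet_rot]
    · show 0 < D (vx 2 i) (vx 0 i) (vx 1 i)
      rw [D_rot, D_rot]; exact hp

theorem nbr_exists (e : Fin 3) (i : Fin 48 × ℤ × ℤ) :
    ∃ S, 0 < D (vx (e + 1) i) (vx e i) S ∧
      triSet (vx (e + 1) i) (vx e i) S ⊆ ⋃ j, triSet (vx 0 j) (vx 1 j) (vx 2 j) := by
  obtain ⟨t, m, n⟩ := i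
  obtain ⟨c1, c2, c3, c4⟩ := nb_check t e
  set j : Fin 48 × ℤ × ℤ := (nbT t e, m + nbM t e, n + nbN t e) with hj
  have h1 : vx (nbE t e) j = vx (e + 1) (t, m, n) := pt_shift _ _ m n _ _ c1 c2
  have h2 : vx (nbE t e + 1) j = vx e (t, m, n) := pt_shift _ _ m n _ _ c3 c4
  obtain ⟨hs, hp⟩ := triSet_cyc (nbE t e) j
  rw [h1, h2] at hs hp
  refine ⟨vx (nbE t e + 2) j, hp, ?_⟩
  rw [hs]
  exact subset_iUnion (fun j => triSet (vx 0 j) (vx 1 j) (vx 2 j)) j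

theorem box_aux (a b X Y c : ℝ) (ha : 0 ≤ a) (hb : 0 ≤ b) (hab : a + b = 1)
    (hX : |X - c| ≤ 4) (hY : |Y - c| ≤ 4) : |a * X + b * Y - c| ≤ 4 := by
  have e : a * X + b * Y - c = a * (X - c) + b * (Y - c) := by
    have hb' : b = 1 - a := by linarith
    rw [hb']; ring
  rw [e]
  calc |a * (X - c) + b * (Y - c)| ≤ |a * (X - c)| + |b * (Y - c)| := abs_add_le _ _
    _ = a * |X - c| + b * |Y - c| := by rw [abs_mul, abs_mul, abs_of_nonneg ha, abs_of_nonneg hb]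
    _ ≤ a * 4 + b * 4 := by gcongr
    _ = 4 := by rw [← add_mul, hab, one_mul]

theorem tri_bounds (i : Fin 48 × ℤ × ℤ) (x : EuclideanSpace ℝ (Fin 2))
    (hx : x ∈ triSet (vx 0 i) (vx 1 i) (vx 2 i)) :
    |x 0 - (i.2.1 : ℝ) * 3.167| ≤ 4 ∧ |x 1 - (i.2.2 : ℝ) * 2.49| ≤ 4 := by
  have hx' := triSet_subset_hull _ _ _ (vx_pos i) hx
  set B : Set (EuclideanSpace ℝ (Fin 2)) :=
    {x | |x 0 - (i.2.1 : ℝ) * 3.167| ≤ 4 ∧ |x 1 - (i.2.2 : ℝ) * 2.49| ≤ 4} with hB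
  have hconv : Convex ℝ B := by
    intro x hx y hy a b ha hb hab
    obtain ⟨x0, x1⟩ := hx
    obtain ⟨y0, y1⟩ := hy
    exact ⟨box_aux a b _ _ _ ha hb hab x0 y0, box_aux a b _ _ _ ha hb hab x1 y1⟩
  have hv : ∀ e, vx e i ∈ B := by
    intro e
    obtain ⟨b1, b2, b3, b4⟩ := bound_check i.1 e
    have b1' : (-4000 : ℝ) ≤ ((tv i.1 e).1 : ℝ) := by exact_mod_cast b1
    have b2' : ((tv i.1 e).1 : ℝ) ≤ (4000 : ℝ) := by exact_mod_cast b2
    have b3' : (-4000 : ℝ) ≤ ((tv i.1 e).2 : ℝ) := by exact_mod_cast b3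
    have b4' : ((tv i.1 e).2 : ℝ) ≤ (4000 : ℝ) := by exact_mod_cast b4
    refine ⟨?_, ?_⟩
    · show |vx e i 0 - _| ≤ 4
      unfold vx
      rw [pt_zero, abs_le]
      unfold Wz
      push_cast
      constructor <;> linarith
    · show |vx e i 1 - _| ≤ 4
      unfold vx
      rw [pt_one, abs_le]
      unfold Hz
      push_cast
      constructor <;> linarith
  have hsub : convexHull ℝ {vx 0 i, vx 1 i, vx 2 i} ⊆ B := by
    refine convexHull_min ?_ hconv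
    rintro y (rfl | rfl | rfl)
    · exact hv 0
    · exact hv 1
    · exact hv 2
  exact hsub hx'

theorem loc_fin : LocallyFinite (fun i : Fin 48 × ℤ × ℤ => triSet (vx 0 i) (vx 1 i) (vx 2 i)) := by
  intro x
  refine ⟨ball x 1, ball_mem_nhds x one_pos, ?_⟩
  set K0 : ℤ := ⌈|x 0| + 5⌉ with hK0
  set K1 : ℤ := ⌈|x 1| + 5⌉ with hK1
  have hfin : ((univ : Set (Fin 48)) ×ˢ (Icc (-K0) K0 ×ˢ Icc (-K1) K1)).Finite :=
    (finite_univ).prod ((finite_Icc _ _).prod (finite_Icc _ _))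
  refine hfin.subset ?_
  rintro ⟨t, m, n⟩ ⟨y, hy, hyx⟩
  obtain ⟨h0, h1⟩ := tri_bounds _ y hy
  rw [mem_ball, EuclideanSpace.dist_eq] at hyx
  have hd : ∑ i, dist (y i) (x i) ^ 2 < 1 := by
    by_contra hcon
    rw [not_lt] at hcon
    have h2 : 1 ≤ Real.sqrt (∑ i, dist (y i) (x i) ^ 2) := by
      rw [Real.one_le_sqrt]; exact hcon
    linarith
  rw [Fin.sum_univ_two, Real.dist_eq, Real.dist_eq, sq_abs, sq_abs] at hd
  have d0 : |y 0 - x 0| ≤ 1 := by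
    apply abs_le_of_sq_le_sq _ (by norm_num)
    nlinarith [sq_nonneg (y 1 - x 1)]
  have d1 : |y 1 - x 1| ≤ 1 := by
    apply abs_le_of_sq_le_sq _ (by norm_num)
    nlinarith [sq_nonneg (y 0 - x 0)]
  have x0le := le_abs_self (x 0)
  have x0ge := neg_abs_le (x 0)
  have x1le := le_abs_self (x 1)
  have x1ge := neg_abs_le (x 1)
  have k0 : |x 0| + 5 ≤ (K0 : ℝ) := Int.le_ceil _
  have k1 : |x 1| + 5 ≤ (K1 : ℝ) := Int.le_ceil _
  rw [abs_le] at h0 h1 d0 d1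
  simp only at h0 h1
  refine ⟨mem_univ _, ⟨?_, ?_⟩, ⟨?_, ?_⟩⟩
  · show -K0 ≤ m
    have : (-(K0 : ℝ)) ≤ (m : ℝ) := by
      by_contra hc; rw [not_le] at hc
      nlinarith [abs_nonneg (x 0)]
    exact_mod_cast this
  · show m ≤ K0
    have : (m : ℝ) ≤ (K0 : ℝ) := by
      by_contra hc; rw [not_le] at hc
      nlinarith [abs_nonneg (x 0)]
    exact_mod_cast this
  · show -K1 ≤ n
    have : (-(K1 : ℝ)) ≤ (n : ℝ) := by
      by_contra hc; rw [not_le] at hc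
      nlinarith [abs_nonneg (x 1)]
    exact_mod_cast this
  · show n ≤ K1
    have : (n : ℝ) ≤ (K1 : ℝ) := by
      by_contra hc; rw [not_le] at hc
      nlinarith [abs_nonneg (x 1)]
    exact_mod_cast this

theorem tri_union : ⋃ i : Fin 48 × ℤ × ℤ, triSet (vx 0 i) (vx 1 i) (vx 2 i) = univ :=
  tri_cover (vx 0) (vx 1) (vx 2) vx_pos loc_fin
    (fun i => nbr_exists 0 i) (fun i => nbr_exists 1 i) (fun i => nbr_exists 2 i)

/-- the cells of the tiling -/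
noncomputable def cell (i : Fin 12) (m n : ℤ) : Set (EuclideanSpace ℝ (Fin 2)) :=
  convexHull ℝ ((fun v => pt v m n) '' {v | v ∈ cv i})

theorem tri_sub_cell (t : Fin 48) (m n : ℤ) :
    triSet (vx 0 (t, m, n)) (vx 1 (t, m, n)) (vx 2 (t, m, n)) ⊆ cell (ow t) m n := by
  refine (triSet_subset_hull _ _ _ (vx_pos _)).trans (convexHull_mono ?_)
  rintro y (rfl | rfl | rfl)
  · exact ⟨tv t 0, owner_check t 0, rfl⟩
  · exact ⟨tv t 1, owner_check t 1, rfl⟩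
  · exact ⟨tv t 2, owner_check t 2, rfl⟩

theorem cell_compact (i : Fin 12) (m n : ℤ) : IsCompact (cell i m n) := by
  have : ((fun v => pt v m n) '' {v | v ∈ cv i}).Finite := (List.finite_toSet (cv i)).image _
  exact this.isCompact_convexHull (𝕜 := ℝ)

theorem cell_convex (i : Fin 12) (m n : ℤ) : Convex ℝ (cell i m n) := convex_convexHull ℝ _

theorem cell_interior (i : Fin 12) (m n : ℤ) : (interior (cell i m n)).Nonempty := by
  obtain ⟨t, rfl⟩ := owner_surj i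
  have h := triSet_interior (vx 0 (t, m, n)) (vx 1 (t, m, n)) (vx 2 (t, m, n)) (vx_pos _)
  exact h.mono (interior_mono (tri_sub_cell t m n))

theorem cell_diam (i : Fin 12) (m n : ℤ) : Metric.diam (cell i m n) ≤ 1 := by
  unfold cell
  rw [convexHull_diam]
  apply Metric.diam_le_of_forall_dist_le (by norm_num)
  rintro _ ⟨u, hu, rfl⟩ _ ⟨v, hv, rfl⟩
  have h := diam_check i u hu v hv
  have h' : ((u.1 : ℝ) - v.1) ^ 2 + ((u.2 : ℝ) - v.2) ^ 2 ≤ 1000000 := by exact_mod_cast h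
  show dist (pt u m n) (pt v m n) ≤ 1
  rw [EuclideanSpace.dist_eq, Fin.sum_univ_two, Real.dist_eq, Real.dist_eq, sq_abs, sq_abs,
    pt_zero, pt_zero, pt_one, pt_one]
  rw [Real.sqrt_le_iff]
  refine ⟨by norm_num, ?_⟩
  push_cast
  have e : ((u.1 + m * (Wz : ℝ)) / 1000 - (v.1 + m * (Wz : ℝ)) / 1000) ^ 2 +
      ((u.2 + n * (Hz : ℝ)) / 1000 - (v.2 + n * (Hz : ℝ)) / 1000) ^ 2 =
      (((u.1 : ℝ) - v.1) ^ 2 + ((u.2 : ℝ) - v.2) ^ 2) / 1000000 := by ring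
  rw [e]
  linarith

theorem cell_cover (x : EuclideanSpace ℝ (Fin 2)) : ∃ i m n, x ∈ cell i m n := by
  have hx : x ∈ ⋃ i : Fin 48 × ℤ × ℤ, triSet (vx 0 i) (vx 1 i) (vx 2 i) := by
    rw [tri_union]; trivial
  obtain ⟨⟨t, m, n⟩, h⟩ := mem_iUnion.1 hx
  exact ⟨ow t, m, n, tri_sub_cell t m n h⟩

end Pool.Agent.Helper658.Tiling
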