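import Mathlib

set_option autoImplicit false

open MeasureTheory Metric Set Filter Topology

namespace Pool.Agent.Helper658

theorem circ_identity (x1 y1 x2 y2 x3 y3 s : ℝ) (h1 : x1^2+y1^2 = s) (h2 : x2^2+y2^2 = s)
    (h3 : x3^2+y3^2 = s) :
    4 * s * ((x2-x1)*(y3-y1) - (y2-y1)*(x3-x1))^2 =
    ((x1-x2)^2+(y1-y2)^2) * ((x2-x3)^2+(y2-y3)^2) * ((x3-x1)^2+(y3-y1)^2) := by
  grind

theorem amgm3 (X Y Z : ℝ) (hX : 0 ≤ X) (hY : 0 ≤ Y) (hZ : 0 ≤ Z) :
    27 * (X * Y * Z) ≤ (X + Y + Z) ^ 3 := by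
  nlinarith [mul_nonneg hX (sq_nonneg (Y - Z)), mul_nonneg hY (sq_nonneg (X - Z)),
    mul_nonneg hZ (sq_nonneg (X - Y)), mul_nonneg (add_nonneg (add_nonneg hX hY) hZ)
      (add_nonneg (add_nonneg (sq_nonneg (X - Y)) (sq_nonneg (Y - Z))) (sq_nonneg (X - Z)))]

theorem cross_aux (X Y Z D s : ℝ) (hX : 0 ≤ X) (hY : 0 ≤ Y) (hZ : 0 ≤ Z) (hs : 0 < s)
    (hid : 4 * s * D ^ 2 = X * Y * Z) (hsum : X + Y + Z ≤ 9 * s) : 4 * D ^ 2 ≤ 27 * s ^ 2 := by
  have hamgm := amgm3 X Y Z hX hY hZ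
  have hcube : (X + Y + Z) ^ 3 ≤ (9 * s) ^ 3 :=
    pow_le_pow_left₀ (by positivity) hsum 3
  rw [← hid] at hamgm
  have h4 : s * (4 * D ^ 2) ≤ s * (27 * s ^ 2) := by
    have e1 : (9 * s) ^ 3 = 27 * (s * (27 * s ^ 2)) := by ring
    have e2 : 27 * (4 * s * D ^ 2) = 27 * (s * (4 * D ^ 2)) := by ring
    rw [e1] at hcube
    rw [e2] at hamgm
    linarith
  exact le_of_mul_le_mul_left h4 hs

theorem cross_bound (x1 y1 x2 y2 x3 y3 s : ℝ) (h1 : x1^2+y1^2 = s) (h2 : x2^2+y2^2 = s)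
    (h3 : x3^2+y3^2 = s) :
    4 * ((x2-x1)*(y3-y1) - (y2-y1)*(x3-x1))^2 ≤ 27 * s ^ 2 := by
  have hs : 0 ≤ s := by rw [← h1]; positivity
  rcases hs.eq_or_lt with h0 | hpos
  · have a1 := (add_eq_zero_iff_of_nonneg (sq_nonneg x1) (sq_nonneg y1)).1 (h1.trans h0.symm)
    have a2 := (add_eq_zero_iff_of_nonneg (sq_nonneg x2) (sq_nonneg y2)).1 (h2.trans h0.symm)
    have a3 := (add_eq_zero_iff_of_nonneg (sq_nonneg x3) (sq_nonneg y3)).1 (h3.trans h0.symm)
    have b1 : x1 = 0 := pow_eq_zero_iff (two_ne_zero) |>.1 a1.1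
    have b2 : y1 = 0 := pow_eq_zero_iff (two_ne_zero) |>.1 a1.2
    have b3 : x2 = 0 := pow_eq_zero_iff (two_ne_zero) |>.1 a2.1
    have b4 : y2 = 0 := pow_eq_zero_iff (two_ne_zero) |>.1 a2.2
    have b5 : x3 = 0 := pow_eq_zero_iff (two_ne_zero) |>.1 a3.1
    have b6 : y3 = 0 := pow_eq_zero_iff (two_ne_zero) |>.1 a3.2
    rw [← h0, b1, b2, b3, b4, b5, b6]
    norm_num
  · have hid := circ_identity x1 y1 x2 y2 x3 y3 s h1 h2 h3
    have hsum : ((x1-x2)^2+(y1-y2)^2) + ((x2-x3)^2+(y2-y3)^2) + ((x3-x1)^2+(y3-y1)^2) ≤ 9 * s := by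
      have e : 9 * s - (((x1-x2)^2+(y1-y2)^2) + ((x2-x3)^2+(y2-y3)^2) + ((x3-x1)^2+(y3-y1)^2)) =
          (x1+x2+x3)^2 + (y1+y2+y3)^2 := by
        linear_combination (-3) * h1 + (-3) * h2 + (-3) * h3
      have : 0 ≤ (x1+x2+x3)^2 + (y1+y2+y3)^2 := by positivity
      linarith
    exact cross_aux _ _ _ _ s (by positivity) (by positivity) (by positivity) hpos hid hsum

/-- the standard triangle has area at most 1/2 -/
theorem vol_stdTri :
    volume {x : EuclideanSpace ℝ (Fin 2) | 0 ≤ x 0 ∧ 0 ≤ x 1 ∧ x 0 + x 1 ≤ 1} ≤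
      ENNReal.ofReal (1/2) := by
  set D : Set (EuclideanSpace ℝ (Fin 2)) := {x | 0 ≤ x 0 ∧ 0 ≤ x 1 ∧ x 0 + x 1 ≤ 1} with hD
  set w : EuclideanSpace ℝ (Fin 2) := !₂[1, 1] with hw
  have hw0 : w 0 = 1 := by simp [hw]
  have hw1 : w 1 = 1 := by simp [hw]
  set D' : Set (EuclideanSpace ℝ (Fin 2)) := (fun x => w - x) ⁻¹' D with hD'
  have hc0 : Continuous (fun x : EuclideanSpace ℝ (Fin 2) => x 0) := by fun_prop
  have hc1 : Continuous (fun x : EuclideanSpace ℝ (Fin 2) => x 1) := by fun_prop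
  have hDclosed : IsClosed D := by
    rw [hD]
    exact (isClosed_le continuous_const hc0).inter ((isClosed_le continuous_const hc1).inter
      (isClosed_le (hc0.add hc1) continuous_const))
  have hDm : MeasurableSet D := hDclosed.measurableSet
  have hvol' : volume D' = volume D := by
    exact (Measure.measurePreserving_sub_left volume w).measure_preimage hDm.nullMeasurableSet
  have hD'm : MeasurableSet D' := by
    have : Continuous (fun x : EuclideanSpace ℝ (Fin 2) => w - x) := by fun_prop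
    exact (hDclosed.preimage this).measurableSet
  -- intersection is null
  have hnull : volume (D ∩ D') = 0 := by
    have hsub : D ∩ D' ⊆ {x : EuclideanSpace ℝ (Fin 2) | x 0 + x 1 = 1} := by
      rintro x ⟨hx, hx'⟩
      rw [hD'] at hx'
      have h1 := hx.2.2
      have h2 := hx'.2.2
      simp only [PiLp.sub_apply, hw0, hw1] at h2
      show x 0 + x 1 = 1
      linarith
    refine measure_mono_null hsub ?_
    let f : EuclideanSpace ℝ (Fin 2) →ₗ[ℝ] ℝ :=
      { toFun := fun x => x 0 + x 1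
        map_add' := by intro x y; simp only [PiLp.add_apply]; ring
        map_smul' := by intro c x; simp only [PiLp.smul_apply, smul_eq_mul, RingHom.id_apply]; ring }
    have hker : (LinearMap.ker f) ≠ ⊤ := by
      intro h
      have : w ∈ LinearMap.ker f := by rw [h]; trivial
      rw [LinearMap.mem_ker] at this
      have h2 : f w = w 0 + w 1 := rfl
      rw [h2, hw0, hw1] at this
      norm_num at this
    have h0 : volume ((LinearMap.ker f : Submodule ℝ (EuclideanSpace ℝ (Fin 2))) :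
        Set (EuclideanSpace ℝ (Fin 2))) = 0 := Measure.addHaar_submodule volume _ hker
    set v : EuclideanSpace ℝ (Fin 2) := !₂[1, 0] with hv
    have hset : {x : EuclideanSpace ℝ (Fin 2) | x 0 + x 1 = 1} =
        (fun x => -v + x) ⁻¹' ((LinearMap.ker f : Submodule ℝ (EuclideanSpace ℝ (Fin 2))) :
        Set (EuclideanSpace ℝ (Fin 2))) := by
      ext x
      rw [mem_preimage, SetLike.mem_coe, LinearMap.mem_ker]
      show x 0 + x 1 = 1 ↔ _
      have h2 : f (-v + x) = (-v + x) 0 + (-v + x) 1 := rfl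
      rw [h2]
      simp only [PiLp.add_apply, PiLp.neg_apply]
      have hv0 : v 0 = 1 := by simp [hv]
      have hv1 : v 1 = 0 := by simp [hv]
      rw [hv0, hv1]
      constructor
      · intro h; linarith
      · intro h; linarith
    rw [hset, measure_preimage_add]
    exact h0
  -- union inside the unit square
  have hsq : volume (D ∪ D') ≤ 1 := by
    have hsub : D ∪ D' ⊆ (@WithLp.ofLp 2 (Fin 2 → ℝ)) ⁻¹' (Icc (0 : Fin 2 → ℝ) 1) := by
      intro x hx
      have hmem : (0 ≤ x 0 ∧ x 0 ≤ 1) ∧ (0 ≤ x 1 ∧ x 1 ≤ 1) := by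
        rcases hx with hx | hx
        · obtain ⟨a, b, c⟩ := hx
          refine ⟨⟨a, by linarith⟩, ⟨b, by linarith⟩⟩
        · rw [hD'] at hx
          obtain ⟨a, b, c⟩ := hx
          simp only [PiLp.sub_apply, hw0, hw1] at a b c
          refine ⟨⟨by linarith, by linarith⟩, ⟨by linarith, by linarith⟩⟩
      rw [mem_preimage, mem_Icc, Pi.le_def, Pi.le_def]
      constructor
      · intro i; fin_cases i
        · exact hmem.1.1
        · exact hmem.2.1
      · intro i; fin_cases i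
        · exact hmem.1.2
        · exact hmem.2.2
    refine (measure_mono hsub).trans ?_
    rw [(PiLp.volume_preserving_ofLp (Fin 2)).measure_preimage
      measurableSet_Icc.nullMeasurableSet, Real.volume_Icc_pi]
    simp
  have hsum : volume D + volume D' ≤ 1 := by
    rw [← measure_union_add_inter D hD'm, hnull, add_zero]
    exact hsq
  rw [hvol'] at hsum
  have h2 : 2 * volume D ≤ 1 := by rw [two_mul]; exact hsum
  have h3 : volume D ≤ 1 / 2 := by
    rw [ENNReal.le_div_iff_mul_le (by norm_num) (by norm_num)]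
    rw [mul_comm]; exact h2
  refine h3.trans (le_of_eq ?_)
  rw [ENNReal.ofReal_div_of_pos (by norm_num)]
  simp

noncomputable def linUV (u v : EuclideanSpace ℝ (Fin 2)) : EuclideanSpace ℝ (Fin 2) →ₗ[ℝ] EuclideanSpace ℝ (Fin 2) where
  toFun := fun x => x 0 • u + x 1 • v
  map_add' := by
    intro x y
    simp only [PiLp.add_apply, add_smul]; abel
  map_smul' := by
    intro c x
    simp only [PiLp.smul_apply, smul_eq_mul, RingHom.id_apply, smul_add, mul_smul]

theorem det_linUV (u v : EuclideanSpace ℝ (Fin 2)) :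
    LinearMap.det (linUV u v) = u 0 * v 1 - v 0 * u 1 := by
  rw [← LinearMap.det_toMatrix (EuclideanSpace.basisFun (Fin 2) ℝ).toBasis, Matrix.det_fin_two]
  simp [LinearMap.toMatrix_apply, linUV]

/-- area of a triangle is at most half the absolute value of the cross product -/
theorem vol_tri (p q r : EuclideanSpace ℝ (Fin 2)) :
    volume (convexHull ℝ {p, q, r}) ≤
      ENNReal.ofReal (|(q 0 - p 0) * (r 1 - p 1) - (q 1 - p 1) * (r 0 - p 0)| / 2) := by
  set D : Set (EuclideanSpace ℝ (Fin 2)) := {x | 0 ≤ x 0 ∧ 0 ≤ x 1 ∧ x 0 + x 1 ≤ 1} with hD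
  have hvol : volume D ≤ ENNReal.ofReal (1/2) := vol_stdTri
  set L := linUV (q - p) (r - p) with hL
  have hsub : convexHull ℝ {p, q, r} ⊆ (fun x => -p + x) ⁻¹' (L '' D) := by
    have hconv : Convex ℝ ((fun x => -p + x) ⁻¹' (L '' D)) := by
      have hDc : Convex ℝ D := by
        rw [hD]
        intro x hx y hy a b ha hb hab
        obtain ⟨x1, x2, x3⟩ := hx
        obtain ⟨y1, y2, y3⟩ := hy
        refine ⟨?_, ?_, ?_⟩
        · simp only [PiLp.add_apply, PiLp.smul_apply, smul_eq_mul]; positivity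
        · simp only [PiLp.add_apply, PiLp.smul_apply, smul_eq_mul]; positivity
        · simp only [PiLp.add_apply, PiLp.smul_apply, smul_eq_mul]
          nlinarith
      exact (hDc.linear_image L).translate_preimage_right (-p)
    refine convexHull_min ?_ hconv
    rintro x hx
    simp only [mem_insert_iff, mem_singleton_iff] at hx
    rw [mem_preimage, hD]
    rcases hx with rfl | rfl | rfl
    · exact ⟨0, by simp, by simp⟩
    · exact ⟨!₂[1, 0], by simp, by simp [hL, linUV]; abel⟩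
    · exact ⟨!₂[0, 1], by simp, by simp [hL, linUV]; abel⟩
  refine (measure_mono hsub).trans ?_
  rw [measure_preimage_add, Measure.addHaar_image_linearMap, hL, det_linUV]
  refine (mul_le_mul_right hvol _).trans ?_
  rw [← ENNReal.ofReal_mul (abs_nonneg _)]
  apply ENNReal.ofReal_le_ofReal
  have : |(q - p) 0 * (r - p) 1 - (r - p) 0 * (q - p) 1| =
      |(q 0 - p 0) * (r 1 - p 1) - (q 1 - p 1) * (r 0 - p 0)| := by
    congr 1
    simp only [PiLp.sub_apply]; ring
  rw [this]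
  linarith

theorem vol_tri_circle (c p q r : EuclideanSpace ℝ (Fin 2)) (ρ R : ℝ) (hp : dist p c = ρ)
    (hq : dist q c = ρ) (hr : dist r c = ρ) (hρR : ρ ≤ R) :
    volume (convexHull ℝ {p, q, r}) ≤ ENNReal.ofReal (3 * Real.sqrt 3 / 4 * R ^ 2) := by
  refine (vol_tri p q r).trans (ENNReal.ofReal_le_ofReal ?_)
  have hρ0 : 0 ≤ ρ := by rw [← hp]; exact dist_nonneg
  have e : ∀ z : EuclideanSpace ℝ (Fin 2), dist z c = ρ →
      (z 0 - c 0) ^ 2 + (z 1 - c 1) ^ 2 = ρ ^ 2 := by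
    intro z hz
    rw [← hz, EuclideanSpace.dist_eq, Real.sq_sqrt (by positivity)]
    simp [Fin.sum_univ_two, Real.dist_eq, sq_abs]
  have h1 := cross_bound (p 0 - c 0) (p 1 - c 1) (q 0 - c 0) (q 1 - c 1) (r 0 - c 0) (r 1 - c 1)
    (ρ ^ 2) (e p hp) (e q hq) (e r hr)
  have h2 : (q 0 - c 0 - (p 0 - c 0)) * (r 1 - c 1 - (p 1 - c 1)) -
      (q 1 - c 1 - (p 1 - c 1)) * (r 0 - c 0 - (p 0 - c 0)) =
      (q 0 - p 0) * (r 1 - p 1) - (q 1 - p 1) * (r 0 - p 0) := by ring
  rw [h2] at h1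
  set Δ := (q 0 - p 0) * (r 1 - p 1) - (q 1 - p 1) * (r 0 - p 0) with hΔ
  have hs3 : Real.sqrt 3 ^ 2 = 3 := Real.sq_sqrt (by norm_num)
  have h3 : |Δ| ≤ 3 * Real.sqrt 3 / 2 * ρ ^ 2 := by
    apply abs_le_of_sq_le_sq _ (by positivity)
    have : (3 * Real.sqrt 3 / 2 * ρ ^ 2) ^ 2 = 27 * (ρ ^ 2) ^ 2 / 4 := by
      calc (3 * Real.sqrt 3 / 2 * ρ ^ 2) ^ 2 = 9 * Real.sqrt 3 ^ 2 / 4 * (ρ ^ 2) ^ 2 := by ring
        _ = 27 * (ρ ^ 2) ^ 2 / 4 := by rw [hs3]; ring
    rw [this]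
    linarith
  have h4 : ρ ^ 2 ≤ R ^ 2 := pow_le_pow_left₀ hρ0 hρR 2
  have h5 : 0 ≤ 3 * Real.sqrt 3 / 2 := by positivity
  have h6 := mul_le_mul_of_nonneg_left h4 h5
  linarith

end Pool.Agent.Helper658
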